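import Pool.Agent.Helper52.PG.Sphere

/-!
# The planar lemma in a group with a preorder which is invariant on both sides

The labels of the cells are elements of a group with the cone `P` of the nonnegative and the set `P'` of
the positive elements (`Helper52.PG.Cone`); `f ≤ g` is read as `f⁻¹ * g ∈ P`.
-/

set_option autoImplicit false

namespace Pool.Agent.Helper94.T1

open Pool.Agent.Helper52.PG

section orb

variable {Ω : Type*}

/-- the points of the orbit, in the order of the permutation -/
noncomputable def orb (σ : Equiv.Perm Ω) (x : Ω) : List Ω :=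
  (List.range (Function.minimalPeriod σ x)).map fun k => σ^[k] x

theorem nodup_orb (σ : Equiv.Perm Ω) (x : Ω) : (orb σ x).Nodup := by
  unfold orb
  refine List.Nodup.map_on ?_ (List.nodup_range)
  intro i hi j hj h
  exact Function.iterate_injOn_Iio_minimalPeriod (List.mem_range.1 hi) (List.mem_range.1 hj) h

theorem mem_orb [Finite Ω] (σ : Equiv.Perm Ω) (x y : Ω) : y ∈ orb σ x ↔ σ.SameCycle x y := by
  unfold orb
  rw [List.mem_map]
  constructor
  · rintro ⟨k, -, rfl⟩
    rw [Equiv.Perm.iterate_eq_pow]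
    exact ⟨k, by simp⟩
  · intro h
    obtain ⟨i, hi⟩ := h.exists_nat_pow_eq
    have hpos : 0 < Function.minimalPeriod σ x := by
      refine Function.minimalPeriod_pos_of_mem_periodicPts ?_
      exact Function.Injective.mem_periodicPts σ.injective x
    refine ⟨i % Function.minimalPeriod σ x, List.mem_range.2 (Nat.mod_lt _ hpos), ?_⟩
    rw [Function.iterate_mod_minimalPeriod_eq, Equiv.Perm.iterate_eq_pow]
    exact hi

variable {D T : Type*}

theorem walk_orb (src tgt : Letter Ω D → T) (σ : Equiv.Perm Ω) (x : Ω) (c : Bool)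
    (h : ∀ y, tgt (.c y c) = src (.c (σ y) c)) :
    Walk src tgt (src (.c x c)) ((orb σ x).map fun y => Letter.c y c) (src (.c x c)) := by
  have key : ∀ n, Walk src tgt (src (.c x c)) (((List.range n).map fun k => σ^[k] x).map fun y => Letter.c y c)
      (src (.c (σ^[n] x) c)) := by
    intro n
    induction n with
    | zero => exact rfl
    | succ n ih =>
      rw [List.range_succ, List.map_append, List.map_append]
      refine walk_append.2 ⟨_, ih, rfl, ?_⟩
      show tgt (.c (σ^[n] x) c) = src (.c (σ^[n + 1] x) c)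
      rw [h, Function.iterate_succ_apply']
  have h1 := key (Function.minimalPeriod σ x)
  rw [Function.iterate_minimalPeriod] at h1
  exact h1

variable {K : Type*} [Group K] {P P' : Set K}

theorem pos_orb (hP : Cone P P') (σ : Equiv.Perm Ω) (x : Ω) (u u' : Ω → K)
    (h : ∀ y, (u y)⁻¹ * u' (σ y) ∈ P) :
    ((orb σ x).map fun y => u' y * (u y)⁻¹).prod ∈ P ∧
      ((∃ y ∈ orb σ x, (u y)⁻¹ * u' (σ y) ∈ P') → ((orb σ x).map fun y => u' y * (u y)⁻¹).prod ∈ P') := by
  have key : ∀ n, (u' x)⁻¹ * (((List.range n).map fun k => σ^[k] x).map fun y => u' y * (u y)⁻¹).prod *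
      u' (σ^[n] x) ∈ P ∧ ((∃ k < n, (u (σ^[k] x))⁻¹ * u' (σ (σ^[k] x)) ∈ P') →
      (u' x)⁻¹ * (((List.range n).map fun k => σ^[k] x).map fun y => u' y * (u y)⁻¹).prod *
        u' (σ^[n] x) ∈ P') := by
    intro n
    induction n with
    | zero =>
      refine ⟨?_, fun ⟨k, hk, _⟩ => by omega⟩
      have : (u' x)⁻¹ * (((List.range 0).map fun k => σ^[k] x).map fun y => u' y * (u y)⁻¹).prod *
          u' (σ^[0] x) = 1 := by simp
      rw [this]
      exact hP.one
    | succ n ih =>
      have e : (u' x)⁻¹ * (((List.range (n + 1)).map fun k => σ^[k] x).map fun y => u' y * (u y)⁻¹).prod *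
          u' (σ^[n + 1] x) = ((u' x)⁻¹ * (((List.range n).map fun k => σ^[k] x).map
            fun y => u' y * (u y)⁻¹).prod * u' (σ^[n] x)) * ((u (σ^[n] x))⁻¹ * u' (σ (σ^[n] x))) := by
        rw [List.range_succ, List.map_append, List.map_append, List.prod_append,
          Function.iterate_succ_apply']
        simp only [List.map_cons, List.map_nil, List.prod_cons, List.prod_nil]
        group
      rw [e]
      refine ⟨hP.mul _ ih.1 _ (h _), ?_⟩
      rintro ⟨k, hk, hk'⟩
      rcases Nat.lt_succ_iff_lt_or_eq.1 hk with hk | rfl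
      · exact hP.mul_left _ (ih.2 ⟨k, hk, hk'⟩) _ (h _)
      · exact hP.mul_right _ ih.1 _ hk'
  have h1 := key (Function.minimalPeriod σ x)
  rw [Function.iterate_minimalPeriod] at h1
  have e : ((orb σ x).map fun y => u' y * (u y)⁻¹).prod = u' x * ((u' x)⁻¹ *
      ((orb σ x).map fun y => u' y * (u y)⁻¹).prod * u' x) * (u' x)⁻¹ := by group
  refine ⟨?_, ?_⟩
  · rw [e]
    exact hP.conj _ _ h1.1
  · rintro ⟨y, hy, hy'⟩
    rw [e]
    refine hP.conj' _ _ (h1.2 ?_)
    obtain ⟨k, hk, rfl⟩ := List.mem_map.1 hy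
    exact ⟨k, List.mem_range.1 hk, hy'⟩

end orb

open Classical in
/-- **The planar lemma in a group with an invariant preorder.** -/
theorem planar_cone {Ω I J Z K : Type*} [Fintype Ω] [Fintype I] [Fintype J] [Fintype Z] [Group K]
    {P P' : Set K} (hP : Cone P P')
    (a b : Equiv.Perm Ω) (p : Ω → I) (q : Ω → J) (z : Ω → Z)
    (hp : ∀ w, p (a w) = p w) (hq : ∀ w, q (b w) = q w) (hz : ∀ w, z (a w) = z (b w))
    (hps : Function.Surjective p) (hqs : Function.Surjective q) (hzs : Function.Surjective z)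
    (htr : ∀ E : Ω → Prop, (∀ w, E (a w) ↔ E w) → (∀ w, E (b w) ↔ E w) → (∀ w, E w) ∨ ∀ w, ¬ E w)
    (hcard : Fintype.card Ω + 2 ≤ Fintype.card I + Fintype.card J + Fintype.card Z)
    (s s' t t' : Ω → K) (H : ∀ w, (s' w * (s w)⁻¹)⁻¹ * (t' w * (t w)⁻¹) ∈ P)
    (Hs : ∀ w, (s (a w))⁻¹ * s' w ∈ P) (Ht : ∀ w, (t' w)⁻¹ * t (b w) ∈ P)
    (hstr : (∃ w, (s' w * (s w)⁻¹)⁻¹ * (t' w * (t w)⁻¹) ∈ P') ∨ (∃ w, (s (a w))⁻¹ * s' w ∈ P') ∨
      ∃ w, (t' w)⁻¹ * t (b w) ∈ P') : 1 ∈ P' := by
  let Ca := Quotient (Equiv.Perm.SameCycle.setoid a)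
  let Cb := Quotient (Equiv.Perm.SameCycle.setoid b)
  have : Fintype Ca := Fintype.ofFinite _
  have : Fintype Cb := Fintype.ofFinite _
  have haa : ∀ y, a (a⁻¹ y) = y := fun y => a.apply_symm_apply y
  have haa' : ∀ y, a⁻¹ (a y) = y := fun y => a.symm_apply_apply y
  have hne : Nonempty Ω := by
    rcases hstr with ⟨w, _⟩ | ⟨w, _⟩ | ⟨w, _⟩ <;> exact ⟨w⟩
  obtain ⟨w₀⟩ := hne
  let ca : Ω → Ca := Quotient.mk _
  let cb : Ω → Cb := Quotient.mk _
  have hca : ∀ x y, ca x = ca y ↔ a.SameCycle x y := fun x y => Quotient.eq (r := Equiv.Perm.SameCycle.setoid a)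
  have hcb : ∀ x y, cb x = cb y ↔ b.SameCycle x y := fun x y => Quotient.eq (r := Equiv.Perm.SameCycle.setoid b)
  have hca' : ∀ c : Ca, ca c.out = c := fun c => Quotient.out_eq c
  have hcb' : ∀ c : Cb, cb c.out = c := fun c => Quotient.out_eq c
  -- the numbers of cycles
  have hcardI : Fintype.card I ≤ Fintype.card Ca := by
    have hh : ∀ x y, a.SameCycle x y → p x = p y := by
      rintro x y h
      obtain ⟨i, rfl⟩ := h.exists_nat_pow_eq
      clear h
      induction i with
      | zero => rfl
      | succ i ih => rw [pow_succ', Equiv.Perm.mul_apply, hp]; exact ih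
    refine Fintype.card_le_of_surjective (fun c : Ca => p c.out) fun i => ?_
    obtain ⟨w, rfl⟩ := hps i
    exact ⟨ca w, hh _ _ ((hca _ _).1 (hca' _))⟩
  have hcardJ : Fintype.card J ≤ Fintype.card Cb := by
    have hh : ∀ x y, b.SameCycle x y → q x = q y := by
      rintro x y h
      obtain ⟨i, rfl⟩ := h.exists_nat_pow_eq
      clear h
      induction i with
      | zero => rfl
      | succ i ih => rw [pow_succ', Equiv.Perm.mul_apply, hq]; exact ih
    refine Fintype.card_le_of_surjective (fun c : Cb => q c.out) fun i => ?_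
    obtain ⟨w, rfl⟩ := hqs i
    exact ⟨cb w, hh _ _ ((hcb _ _).1 (hcb' _))⟩
  -- the surface
  let src : Letter Ω Empty → Z := fun l => match l with
    | .c w true => z (a w)
    | .c w false => z w
    | .d e => e.elim
  let tgt : Letter Ω Empty → Z := fun l => match l with
    | .c w true => z w
    | .c w false => z (b w)
    | .d e => e.elim
  let val : Letter Ω Empty → K := fun l => match l with
    | .c w true => s' w * (s w)⁻¹
    | .c w false => t w * (t' w)⁻¹
    | .d e => e.elim
  let poly : Ca ⊕ Cb → List (Letter Ω Empty) := fun i => match i with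
    | Sum.inl c => (orb a⁻¹ c.out).map fun w => Letter.c w true
    | Sum.inr c => (orb b c.out).map fun w => Letter.c w false
  let own : Ω → Bool → Ca ⊕ Cb := fun w c => match c with
    | true => Sum.inl (ca w)
    | false => Sum.inr (cb w)
  let str : Ω → Prop := fun w => (s' w * (s w)⁻¹)⁻¹ * (t' w * (t w)⁻¹) ∈ P'
  let strp : Ca ⊕ Cb → Prop := fun i => match i with
    | Sum.inl c => ∃ w, ca w = c ∧ (s (a w))⁻¹ * s' w ∈ P'
    | Sum.inr c => ∃ w, cb w = c ∧ (t' w)⁻¹ * t (b w) ∈ P'
  have hsame : ∀ x y, a⁻¹.SameCycle x y ↔ a.SameCycle x y := fun x y => Equiv.Perm.sameCycle_inv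
  have G : Glue P P' src tgt val poly own str strp := by
    refine ⟨hP, ?_, ?_, ?_, ?_, ?_, ?_, ?_, ?_⟩
    · -- the counts
      intro w c i
      rcases i with i | i <;> rcases c with _ | _
      · rw [if_neg (by simp [own])]
        refine List.count_eq_zero.2 fun h => ?_
        obtain ⟨y, _, hy⟩ := List.mem_map.1 h
        injection hy with h1 h2
        exact absurd h2 (by decide)
      · have hnd : (poly (Sum.inl i)).Nodup :=
          List.Nodup.map (fun x y h => by injection h) (nodup_orb a⁻¹ i.out)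
        have hmem : Letter.c w true ∈ poly (Sum.inl i) ↔ Sum.inl i = own w true := by
          show Letter.c w true ∈ (orb a⁻¹ i.out).map (fun w => Letter.c w true) ↔ _
          rw [List.mem_map]
          constructor
          · rintro ⟨y, hy, h⟩
            injection h with h1 h2
            subst h1
            rw [mem_orb, hsame, ← hca, hca'] at hy
            show Sum.inl i = Sum.inl (ca y)
            rw [hy]
          · intro h
            have h1 : i = ca w := Sum.inl.inj h
            refine ⟨w, ?_, rfl⟩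
            rw [mem_orb, hsame, ← hca, hca']
            exact h1
        by_cases h : Sum.inl i = own w true
        · rw [if_pos h]
          exact List.count_eq_one_of_mem hnd (hmem.2 h)
        · rw [if_neg h]
          exact List.count_eq_zero.2 fun h1 => h (hmem.1 h1)
      · have hnd : (poly (Sum.inr i)).Nodup :=
          List.Nodup.map (fun x y h => by injection h) (nodup_orb b i.out)
        have hmem : Letter.c w false ∈ poly (Sum.inr i) ↔ Sum.inr i = own w false := by
          show Letter.c w false ∈ (orb b i.out).map (fun w => Letter.c w false) ↔ _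
          rw [List.mem_map]
          constructor
          · rintro ⟨y, hy, h⟩
            injection h with h1 h2
            subst h1
            rw [mem_orb, ← hcb, hcb'] at hy
            show Sum.inr i = Sum.inr (cb y)
            rw [hy]
          · intro h
            have h1 : i = cb w := Sum.inr.inj h
            refine ⟨w, ?_, rfl⟩
            rw [mem_orb, ← hcb, hcb']
            exact h1
        by_cases h : Sum.inr i = own w false
        · rw [if_pos h]
          exact List.count_eq_one_of_mem hnd (hmem.2 h)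
        · rw [if_neg h]
          exact List.count_eq_zero.2 fun h1 => h (hmem.1 h1)
      · rw [if_neg (by simp [own])]
        refine List.count_eq_zero.2 fun h => ?_
        obtain ⟨y, _, hy⟩ := List.mem_map.1 h
        injection hy with h1 h2
        exact absurd h2 (by decide)
    · -- the walks
      rintro (c | c)
      · refine ⟨_, walk_orb src tgt a⁻¹ c.out true fun y => ?_⟩
        show z y = z (a (a⁻¹ y))
        rw [haa]
      · exact ⟨_, walk_orb src tgt b c.out false fun y => rfl⟩
    · -- the ends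
      rintro w (_ | _)
      · exact hz w
      · rfl
    · -- the polygons
      rintro (c | c)
      · have h1 := (pos_orb hP a⁻¹ c.out s s' (fun y => by
          have := Hs (a⁻¹ y)
          rwa [haa] at this)).1
        show ((List.map (fun w => Letter.c w true) (orb a⁻¹ c.out)).map val).prod ∈ P
        rw [List.map_map]
        exact h1
      · have h1 := (pos_orb hP b c.out t' t Ht).1
        show ((List.map (fun w => Letter.c w false) (orb b c.out)).map val).prod ∈ P
        rw [List.map_map]
        exact h1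
    · rintro (c | c)
      · rintro ⟨w, hw, hw'⟩
        have h1 := (pos_orb hP a⁻¹ c.out s s' (fun y => by
          have := Hs (a⁻¹ y)
          rwa [haa] at this)).2 ⟨a w, by
            rw [mem_orb, hsame, ← hca, hca', ← hw, hca]
            exact ⟨1, rfl⟩, by rwa [haa']⟩
        show ((List.map (fun w => Letter.c w true) (orb a⁻¹ c.out)).map val).prod ∈ P'
        rw [List.map_map]
        exact h1
      · rintro ⟨w, hw, hw'⟩
        have h1 := (pos_orb hP b c.out t' t Ht).2 ⟨w, by
            rw [mem_orb, ← hcb, hcb', ← hw], hw'⟩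
        show ((List.map (fun w => Letter.c w false) (orb b c.out)).map val).prod ∈ P'
        rw [List.map_map]
        exact h1
    · -- the cells
      rintro w (_ | _)
      · show (t w * (t' w)⁻¹ * (s' w * (s w)⁻¹))⁻¹ ∈ P
        have e : (t w * (t' w)⁻¹ * (s' w * (s w)⁻¹))⁻¹ = (s' w * (s w)⁻¹)⁻¹ * (t' w * (t w)⁻¹) := by group
        rw [e]
        exact H w
      · show (s' w * (s w)⁻¹ * (t w * (t' w)⁻¹))⁻¹ ∈ P
        have e : (s' w * (s w)⁻¹ * (t w * (t' w)⁻¹))⁻¹ = (s' w * (s w)⁻¹) *
            ((s' w * (s w)⁻¹)⁻¹ * (t' w * (t w)⁻¹)) * (s' w * (s w)⁻¹)⁻¹ := by group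
        rw [e]
        exact hP.conj _ _ (H w)
    · rintro w (_ | _) hw
      · show (t w * (t' w)⁻¹ * (s' w * (s w)⁻¹))⁻¹ ∈ P'
        have e : (t w * (t' w)⁻¹ * (s' w * (s w)⁻¹))⁻¹ = (s' w * (s w)⁻¹)⁻¹ * (t' w * (t w)⁻¹) := by group
        rw [e]
        exact hw
      · show (s' w * (s w)⁻¹ * (t w * (t' w)⁻¹))⁻¹ ∈ P'
        have e : (s' w * (s w)⁻¹ * (t w * (t' w)⁻¹))⁻¹ = (s' w * (s w)⁻¹) *
            ((s' w * (s w)⁻¹)⁻¹ * (t' w * (t w)⁻¹)) * (s' w * (s w)⁻¹)⁻¹ := by group
        rw [e]
        exact hP.conj' _ _ hw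
    · -- connected
      intro C hC1 hC2
      by_contra hcon
      push Not at hcon
      have h1 : ∀ w, Sum.inl (ca w) ∈ C ↔ Sum.inr (cb w) ∈ C := fun w =>
        ⟨fun h => hcon w true h, fun h => hcon w false h⟩
      have h2 := htr (fun w => Sum.inl (ca w) ∈ C) (fun w => by
        have : ca (a w) = ca w := (hca _ _).2 (Equiv.Perm.SameCycle.symm ⟨1, rfl⟩)
        rw [this]) (fun w => by
        have : cb (b w) = cb w := (hcb _ _).2 (Equiv.Perm.SameCycle.symm ⟨1, rfl⟩)
        rw [h1, this, ← h1])
      rcases h2 with h2 | h2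
      · refine hC2 (Finset.eq_univ_of_forall ?_)
        rintro (c | c)
        · rw [← hca' c]
          exact h2 _
        · rw [← hcb' c]
          exact (h1 _).1 (h2 _)
      · obtain ⟨c | c, hc⟩ := hC1
        · rw [← hca' c] at hc
          exact h2 _ hc
        · rw [← hcb' c] at hc
          exact h2 _ ((h1 _).2 hc)
  have : Nonempty (Ca ⊕ Cb) := ⟨Sum.inl (ca w₀)⟩
  refine sphere G (fun _ e => e.elim) (fun σ => ?_) ?_ ?_
  · obtain ⟨w, rfl⟩ := hzs σ
    refine ⟨Sum.inr (cb w), Letter.c w false, ?_, rfl⟩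
    show Letter.c w false ∈ (orb b (cb w).out).map fun w => Letter.c w false
    refine List.mem_map.2 ⟨w, ?_, rfl⟩
    rw [mem_orb, ← hcb, hcb']
  · rw [Fintype.card_sum]
    omega
  · rcases hstr with ⟨w, hw⟩ | ⟨w, hw⟩ | ⟨w, hw⟩
    · exact Or.inl ⟨w, hw⟩
    · exact Or.inr ⟨Sum.inl (ca w), w, rfl, hw⟩
    · exact Or.inr ⟨Sum.inr (cb w), w, rfl, hw⟩

/-- The pointwise order of the automorphisms of a linear order; positive is nonnegative and not `1`. -/
theorem cone_ne (X : Type*) [LinearOrder X] :
    Cone {f : X ≃o X | ∀ z, z ≤ f z} {f : X ≃o X | (∀ z, z ≤ f z) ∧ f ≠ 1} where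
  one z := le_refl z
  sub f hf := hf.1
  mul f hf g hg z := (hg z).trans (hf _)
  mul_left f hf g hg := by
    refine ⟨fun z => (hg z).trans (hf.1 _), fun h => hf.2 ?_⟩
    ext z
    refine le_antisymm ?_ (hf.1 z)
    have h1 : f (g (g⁻¹ z)) = g⁻¹ z := congrArg (fun u : X ≃o X => u (g⁻¹ z)) h
    have h2 := hg (g⁻¹ z)
    rw [RelIso.apply_inv_self] at h1 h2
    rw [h1]
    exact h2
  mul_right f hf g hg := by
    refine ⟨fun z => (hg.1 z).trans (hf _), fun h => hg.2 ?_⟩
    ext z
    refine le_antisymm ?_ (hg.1 z)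
    have h1 : f (g z) = z := congrArg (fun u : X ≃o X => u z) h
    exact (hf (g z)).trans h1.le
  conj g f hf z := by
    have h := g.monotone (hf (g⁻¹ z))
    rw [RelIso.apply_inv_self] at h
    exact h
  conj' g f hf := by
    refine ⟨fun z => ?_, fun h => hf.2 ?_⟩
    · have h := g.monotone (hf.1 (g⁻¹ z))
      rw [RelIso.apply_inv_self] at h
      exact h
    · have h1 : f = g⁻¹ * (g * f * g⁻¹) * g := by group
      rw [h1, h]
      group

end Pool.Agent.Helper94.T1
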