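import Pool.Agent.Helper72.T1.Comp
import Pool.Agent.Helper94.T1.Cone

/-!
# The planar lemma in a group with an invariant preorder, on a component

If the number of the cycles of `a`, `b` and `b a⁻¹` is larger than the number of the cells, then there is a
closed set of cells without a strict inequality (after helper72's component lemma).
-/

set_option autoImplicit false
set_option linter.unusedSectionVars false

open Finset Equiv

namespace Pool.Agent.Helper94.T1

open Pool.Agent.Helper72.T1 Pool.Agent.Helper52.PG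

universe u

/-- The planar lemma on a component, with the cycles. -/
theorem cone_component_cyc {K : Type*} [Group K] {P P' : Set K} (hP : Cone P P') (h1 : (1 : K) ∉ P') :
    ∀ (n : ℕ) {Ω : Type u} [Fintype Ω] (a b : Perm Ω)
    [Fintype (Cyc a)] [Fintype (Cyc b)] [Fintype (Cyc (b * a⁻¹))], Fintype.card Ω = n →
    Fintype.card Ω < Fintype.card (Cyc a) + Fintype.card (Cyc b) + Fintype.card (Cyc (b * a⁻¹)) →
    ∀ (s s' t t' : Ω → K), (∀ w, (s' w * (s w)⁻¹)⁻¹ * (t' w * (t w)⁻¹) ∈ P) →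
    (∀ w, (s (a w))⁻¹ * s' w ∈ P) → (∀ w, (t' w)⁻¹ * t (b w) ∈ P) →
    ∃ C : Set Ω, C.Nonempty ∧ (∀ w, a w ∈ C ↔ w ∈ C) ∧ (∀ w, b w ∈ C ↔ w ∈ C) ∧
      ∀ w ∈ C, (s' w * (s w)⁻¹)⁻¹ * (t' w * (t w)⁻¹) ∉ P' ∧ (s (a w))⁻¹ * s' w ∉ P' ∧
        (t' w)⁻¹ * t (b w) ∉ P' := by
  intro n
  induction n using Nat.strong_induction_on with
  | _ n ih =>
    intro Ω _ a b _ _ _ hn hcard s s' t t' H Hs Ht
    classical
    by_cases htr : ∀ E : Ω → Prop, (∀ w, E (a w) ↔ E w) → (∀ w, E (b w) ↔ E w) → (∀ w, E w) ∨ ∀ w, ¬ E w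
    · have h2 := euler_even a b hcard
      have hp : ∀ w, (Quotient.mk _ (a w) : Cyc a) = Quotient.mk _ w := fun w =>
        Quotient.sound (Perm.sameCycle_apply_left.2 (Perm.SameCycle.refl _ _))
      have hq : ∀ w, (Quotient.mk _ (b w) : Cyc b) = Quotient.mk _ w := fun w =>
        Quotient.sound (Perm.sameCycle_apply_left.2 (Perm.SameCycle.refl _ _))
      have hz : ∀ w, (Quotient.mk _ (a w) : Cyc (b * a⁻¹)) = Quotient.mk _ (b w) := by
        intro w
        refine Quotient.sound ?_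
        have h3 : (b * a⁻¹) (a w) = b w := by simp
        rw [← h3]
        exact Perm.sameCycle_apply_right.2 (Perm.SameCycle.refl _ _)
      have hne : Nonempty Ω := by
        by_contra hem
        rw [not_nonempty_iff] at hem
        have e1 : IsEmpty (Cyc a) := ⟨fun q => by induction q using Quotient.inductionOn with | h w => exact hem.false w⟩
        have e2 : IsEmpty (Cyc b) := ⟨fun q => by induction q using Quotient.inductionOn with | h w => exact hem.false w⟩
        have e3 : IsEmpty (Cyc (b * a⁻¹)) :=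
          ⟨fun q => by induction q using Quotient.inductionOn with | h w => exact hem.false w⟩
        rw [Fintype.card_eq_zero, Fintype.card_eq_zero, Fintype.card_eq_zero, Fintype.card_eq_zero] at hcard
        omega
      have h4 : ¬ ((∃ w, (s' w * (s w)⁻¹)⁻¹ * (t' w * (t w)⁻¹) ∈ P') ∨ (∃ w, (s (a w))⁻¹ * s' w ∈ P') ∨
          ∃ w, (t' w)⁻¹ * t (b w) ∈ P') := fun hstr =>
        h1 (planar_cone hP a b (fun w => (Quotient.mk _ w : Cyc a)) (fun w => (Quotient.mk _ w : Cyc b))
          (fun w => (Quotient.mk _ w : Cyc (b * a⁻¹))) hp hq hz Quotient.mk_surjective Quotient.mk_surjective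
          Quotient.mk_surjective htr h2 s s' t t' H Hs Ht hstr)
      push Not at h4
      exact ⟨Set.univ, ⟨hne.some, trivial⟩, fun w => ⟨fun _ => trivial, fun _ => trivial⟩,
        fun w => ⟨fun _ => trivial, fun _ => trivial⟩, fun w _ => ⟨h4.1 w, h4.2.1 w, h4.2.2 w⟩⟩
    · push Not at htr
      obtain ⟨E, ha, hb, ⟨w₁, hw₁⟩, w₂, hw₂⟩ := htr
      have ha' : ∀ w, ¬ E (a w) ↔ ¬ E w := fun w => not_congr (ha w)
      have hb' : ∀ w, ¬ E (b w) ↔ ¬ E w := fun w => not_congr (hb w)
      have hc : ∀ w, E ((b * a⁻¹) w) ↔ E w := by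
        intro w
        rw [Perm.mul_apply, hb]
        have := ha (a⁻¹ w)
        rw [ainv] at this
        exact this.symm
      -- the restriction to an invariant subset
      have step : ∀ (R : Ω → Prop) (hRa : ∀ w, R (a w) ↔ R w) (hRb : ∀ w, R (b w) ↔ R w), (∃ w, ¬ R w) →
          Fintype.card {w // R w} < Fintype.card (Cyc (a.subtypePerm hRa)) + Fintype.card (Cyc (b.subtypePerm hRb)) +
            Fintype.card (Cyc ((b.subtypePerm hRb) * (a.subtypePerm hRa)⁻¹)) →
          ∃ C : Set Ω, C.Nonempty ∧ (∀ w, a w ∈ C ↔ w ∈ C) ∧ (∀ w, b w ∈ C ↔ w ∈ C) ∧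
            ∀ w ∈ C, (s' w * (s w)⁻¹)⁻¹ * (t' w * (t w)⁻¹) ∉ P' ∧ (s (a w))⁻¹ * s' w ∉ P' ∧
              (t' w)⁻¹ * t (b w) ∉ P' := by
        rintro R hRa hRb ⟨w₀, hw₀⟩ hlt
        have hlt2 : Fintype.card {w // R w} < n := by
          rw [← hn]
          exact Fintype.card_subtype_lt hw₀
        obtain ⟨C, ⟨v, hv⟩, hC1, hC2, hC3⟩ := ih _ hlt2 (a.subtypePerm hRa) (b.subtypePerm hRb) rfl hlt
          (fun w => s w.1) (fun w => s' w.1) (fun w => t w.1) (fun w => t' w.1) (fun w => H w.1)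
          (fun w => Hs w.1) (fun w => Ht w.1)
        have hmem : ∀ (w : {w // R w}), w.1 ∈ Subtype.val '' C ↔ w ∈ C := fun w =>
          ⟨fun ⟨w', h3, h4⟩ => by rwa [← Subtype.ext h4], fun h3 => ⟨w, h3, rfl⟩⟩
        have hmR : ∀ w, w ∈ Subtype.val '' C → R w := fun w ⟨w', _, h4⟩ => h4 ▸ w'.2
        refine ⟨Subtype.val '' C, ⟨v.1, v, hv, rfl⟩, ?_, ?_, ?_⟩
        · intro w
          by_cases hw : R w
          · have h3 := hC1 ⟨w, hw⟩
            rw [← hmem, ← hmem] at h3
            exact h3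
          · exact ⟨fun h3 => absurd ((hRa w).1 (hmR _ h3)) hw, fun h3 => absurd (hmR _ h3) hw⟩
        · intro w
          by_cases hw : R w
          · have h3 := hC2 ⟨w, hw⟩
            rw [← hmem, ← hmem] at h3
            exact h3
          · exact ⟨fun h3 => absurd ((hRb w).1 (hmR _ h3)) hw, fun h3 => absurd (hmR _ h3) hw⟩
        · rintro _ ⟨w, hw, rfl⟩
          exact hC3 w hw
      have q1 := cyc_split a E ha
      have q2 := cyc_split b E hb
      have q3 := cyc_split (b * a⁻¹) E hc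
      have e1 : (b * a⁻¹).subtypePerm hc = (b.subtypePerm hb) * (a.subtypePerm ha)⁻¹ := by
        ext w
        rfl
      have e2 : (b * a⁻¹).subtypePerm (p := fun w => ¬ E w) (fun w => not_congr (hc w)) =
          (b.subtypePerm (p := fun w => ¬ E w) hb') * (a.subtypePerm (p := fun w => ¬ E w) ha')⁻¹ := by
        ext w
        rfl
      have c1 : Fintype.card (Cyc ((b * a⁻¹).subtypePerm hc)) =
          Fintype.card (Cyc ((b.subtypePerm hb) * (a.subtypePerm ha)⁻¹)) := by
        rw! [e1]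
        rfl
      have c2 : Fintype.card (Cyc ((b * a⁻¹).subtypePerm (p := fun w => ¬ E w) (fun w => not_congr (hc w)))) =
          Fintype.card (Cyc ((b.subtypePerm (p := fun w => ¬ E w) hb') * (a.subtypePerm (p := fun w => ¬ E w) ha')⁻¹)) := by
        rw! [e2]
        rfl
      have hsum : Fintype.card {w // E w} + Fintype.card {w // ¬ E w} = Fintype.card Ω := by
        rw [Fintype.card_subtype_compl]
        have := Fintype.card_subtype_le E
        omega
      by_cases hE : Fintype.card {w // E w} < Fintype.card (Cyc (a.subtypePerm ha)) + Fintype.card (Cyc (b.subtypePerm hb)) +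
            Fintype.card (Cyc ((b.subtypePerm hb) * (a.subtypePerm ha)⁻¹))
      · exact step E ha hb ⟨w₁, hw₁⟩ hE
      · refine step (fun w => ¬ E w) ha' hb' ⟨w₂, not_not.2 hw₂⟩ ?_
        simp only [← Nat.card_eq_fintype_card] at hcard q1 q2 q3 c1 c2 hsum hE ⊢
        omega

/-- **The planar lemma in a group with an invariant preorder, on a component.**  If every closed set of
cells has a strict inequality, then `1` is positive. -/
theorem cone_component {Ω : Type u} {I J Z K : Type*} [Fintype Ω] [Fintype I] [Fintype J] [Fintype Z] [Group K]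
    {P P' : Set K} (hP : Cone P P')
    (a b : Perm Ω) (p : Ω → I) (q : Ω → J) (z : Ω → Z)
    (hp : ∀ w, p (a w) = p w) (hq : ∀ w, q (b w) = q w) (hz : ∀ w, z (a w) = z (b w))
    (hps : Function.Surjective p) (hqs : Function.Surjective q) (hzs : Function.Surjective z)
    (hcard : Fintype.card Ω < Fintype.card I + Fintype.card J + Fintype.card Z)
    (s s' t t' : Ω → K) (H : ∀ w, (s' w * (s w)⁻¹)⁻¹ * (t' w * (t w)⁻¹) ∈ P)
    (Hs : ∀ w, (s (a w))⁻¹ * s' w ∈ P) (Ht : ∀ w, (t' w)⁻¹ * t (b w) ∈ P)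
    (hstr : ∀ C : Set Ω, C.Nonempty → (∀ w, a w ∈ C ↔ w ∈ C) → (∀ w, b w ∈ C ↔ w ∈ C) →
      ∃ w ∈ C, (s' w * (s w)⁻¹)⁻¹ * (t' w * (t w)⁻¹) ∈ P' ∨ (s (a w))⁻¹ * s' w ∈ P' ∨
        (t' w)⁻¹ * t (b w) ∈ P') : 1 ∈ P' := by
  classical
  by_contra h1
  have h2 := card_le_cyc a p hp hps
  have h3 := card_le_cyc b q hq hqs
  have h4 := card_le_cyc (b * a⁻¹) z (fun w => by
    rw [Perm.mul_apply, ← hz, ainv]) hzs
  obtain ⟨C, hC1, hC2, hC3, hC4⟩ := cone_component_cyc hP h1 _ a b rfl (by omega) s s' t t' H Hs Ht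
  obtain ⟨w, hw, h5⟩ := hstr C hC1 hC2 hC3
  have h6 := hC4 w hw
  rcases h5 with h5 | h5 | h5
  · exact h6.1 h5
  · exact h6.2.1 h5
  · exact h6.2.2 h5

end Pool.Agent.Helper94.T1
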