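import Mathlib

/-!
# Cells on lines, the potential of the joined columns, and the times

Three combinatorial lemmas for dissections of a `k × h` rectangle: the next cell on a line, the potential
`τ ^ α * M ^ (-β)` of the columns joined modulo `gcd h k`, and the levels which are counted once.
-/

set_option autoImplicit false

namespace Pool.Agent.Helper94.T1

/-- The next cell: cells are disjoint intervals on lines; the end of the line `s` is joined to the start of the
line `ρ s`. -/
theorem next_line {Ω S : Type*} [Finite Ω] (ρ : Equiv.Perm S) (l : Ω → S) (lo hi : Ω → ℕ)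
    (hlt : ∀ w, lo w < hi w) (hdis : ∀ w w', l w = l w' → w ≠ w' → hi w ≤ lo w' ∨ hi w' ≤ lo w)
    (hne : ∀ s, ∃ w, l w = s) :
    ∃ b : Equiv.Perm Ω, ∀ w,
      (l (b w) = l w ∧ hi w ≤ lo (b w) ∧ ∀ w', l w' = l w → hi w ≤ lo w' → lo (b w) ≤ lo w') ∨
      ((∀ w', l w' = l w → w' ≠ w → hi w' ≤ lo w) ∧ l (b w) = ρ (l w) ∧
        ∀ w', l w' = ρ (l w) → lo (b w) ≤ lo w') := by
  classical
  have hex : ∀ w, ∃ v, (l v = l w ∧ hi w ≤ lo v ∧ ∀ w', l w' = l w → hi w ≤ lo w' → lo v ≤ lo w') ∨
      ((∀ w', l w' = l w → w' ≠ w → hi w' ≤ lo w) ∧ l v = ρ (l w) ∧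
        ∀ w', l w' = ρ (l w) → lo v ≤ lo w') := by
    intro w
    by_cases h : ∃ w', l w' = l w ∧ hi w ≤ lo w'
    · obtain ⟨v, ⟨hv1, hv2⟩, hv3⟩ := Set.exists_min_image {w' | l w' = l w ∧ hi w ≤ lo w'} lo
        (Set.toFinite _) h
      exact ⟨v, Or.inl ⟨hv1, hv2, fun w' h1 h2 => hv3 w' ⟨h1, h2⟩⟩⟩
    · push Not at h
      obtain ⟨v, hv1, hv3⟩ := Set.exists_min_image {w' | l w' = ρ (l w)} lo (Set.toFinite _) (hne _)
      refine ⟨v, Or.inr ⟨fun w' h1 h2 => ?_, hv1, fun w' h1 => hv3 w' h1⟩⟩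
      rcases hdis w' w h1 h2 with h3 | h3
      · exact h3
      · exact absurd (h w' h1) (not_lt.2 h3)
  choose g hg using hex
  have hinj : Function.Injective g := by
    intro w1 w2 h
    by_contra hne12
    -- the two cases
    have key : ∀ w1 w2, g w1 = g w2 → w1 ≠ w2 → l w1 = l w2 → hi w1 ≤ lo w2 → False := by
      intro w1 w2 h hne12 h1 h2
      rcases hg w1 with ⟨a1, a2, a3⟩ | ⟨a1, a2, a3⟩
      · have h3 := a3 w2 h1.symm h2
        rcases hg w2 with ⟨b1, b2, b3⟩ | ⟨b1, b2, b3⟩
        · rw [← h] at b2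
          have := hlt w2
          omega
        · rw [← h] at b3 b2
          have h4 := b3 w1 (by rw [← b2, a1])
          have := hlt w1
          omega
      · have h3 := a1 w2 h1.symm (Ne.symm hne12)
        have := hlt w2
        have := hlt w1
        omega
    have hl : l w1 = l w2 := by
      rcases hg w1 with ⟨a1, a2, a3⟩ | ⟨a1, a2, a3⟩
      · rcases hg w2 with ⟨b1, b2, b3⟩ | ⟨b1, b2, b3⟩
        · rw [← a1, ← b1, h]
        · exfalso
          rw [← h] at b2 b3
          have h4 := b3 w1 (by rw [← b2, a1])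
          have := hlt w1
          omega
      · rcases hg w2 with ⟨b1, b2, b3⟩ | ⟨b1, b2, b3⟩
        · exfalso
          rw [h] at a2 a3
          have h4 := a3 w2 (by rw [← a2, b1])
          have := hlt w2
          omega
        · rw [h, b2] at a2
          exact (ρ.injective a2).symm
    rcases hdis w1 w2 hl hne12 with h1 | h1
    · exact key w1 w2 h hne12 hl h1
    · exact key w2 w1 h.symm (Ne.symm hne12) hl.symm h1
  exact ⟨Equiv.ofBijective g (Finite.injective_iff_bijective.1 hinj), hg⟩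

/-- the potential of the joined columns -/
theorem potential {K : Type*} [Group K] {τ M : K} (hcomm : Commute τ M) {h k d h' k' : ℕ} (hd : 0 < d)
    (hh : h = d * h') (hk : k = d * k') (hh' : 0 < h') (hk' : 0 < k') (hco : Nat.Coprime h' k') :
    ∃ f : ℕ → K, (∀ s, ∃ n : ℕ, τ * f s * (f (s + h))⁻¹ = (τ ^ k' * (M ^ h')⁻¹) ^ n) ∧
      (∀ s, ∃ n : ℕ, M⁻¹ * f (s + k) * (f s)⁻¹ = (τ ^ k' * (M ^ h')⁻¹) ^ n) ∧
      ∀ s < d, M⁻¹ * f (s + k) * (f s)⁻¹ = τ ^ k' * (M ^ h')⁻¹ := by
  -- Bezout
  obtain ⟨x, y, hxy⟩ : ∃ x y : ℤ, x * h' - y * k' = 1 := by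
    have h1 := Nat.isCoprime_iff_coprime.2 hco
    obtain ⟨x, y, hxy⟩ := h1
    exact ⟨x, -y, by rw [← hxy]; ring⟩
  set c : ℤ := h' + k' with hc
  have hcpos : 0 < c := by omega
  set D : K := τ ^ k' * (M ^ h')⁻¹ with hD
  set F : ℤ → ℤ → K := fun u n => τ ^ (u * x - k' * n) * M ^ (-(u * y - h' * n)) with hF
  have hz : ∀ a b : ℤ, Commute (τ ^ a) (M ^ b) := fun a b => (hcomm.zpow_right b).zpow_left a
  have hDz : ∀ n : ℤ, D ^ n = τ ^ ((k' : ℤ) * n) * M ^ (-((h' : ℤ) * n)) := by
    intro n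
    have h1 : Commute (τ ^ k') (M ^ h')⁻¹ := by
      have := hz k' h'
      rw [zpow_natCast, zpow_natCast] at this
      exact this.inv_right
    rw [hD, h1.mul_zpow, inv_zpow', ← zpow_natCast τ, ← zpow_natCast M, ← zpow_mul, ← zpow_mul]
    congr 2
    ring
  -- the comparison of two values
  have hcmp : ∀ (p q u n u' n' m : ℤ), u * x - k' * n + p - (u' * x - k' * n') = k' * m →
      (u * y - h' * n) + q - (u' * y - h' * n') = h' * m →
      τ ^ p * M ^ (-q) * F u n * (F u' n')⁻¹ = D ^ m := by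
    intro p q u n u' n' m h1 h2
    rw [hDz, hF]
    simp only
    rw [mul_inv_rev, ← zpow_neg, ← zpow_neg]
    have e1 : τ ^ p * M ^ (-q) * (τ ^ (u * x - k' * n) * M ^ (-(u * y - h' * n))) *
        (M ^ (- -(u' * y - h' * n')) * τ ^ (-(u' * x - k' * n'))) =
        τ ^ (p + (u * x - k' * n) + -(u' * x - k' * n')) *
          M ^ (-q + -(u * y - h' * n) + - -(u' * y - h' * n')) := by
      rw [zpow_add, zpow_add, zpow_add M, zpow_add M]
      have c1 : M ^ (-q) * τ ^ (u * x - k' * n) = τ ^ (u * x - k' * n) * M ^ (-q) := (hz _ _).symm.eq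
      have c2 : (M ^ (-q) * M ^ (-(u * y - h' * n)) * M ^ (- -(u' * y - h' * n'))) *
          τ ^ (-(u' * x - k' * n')) = τ ^ (-(u' * x - k' * n')) *
          (M ^ (-q) * M ^ (-(u * y - h' * n)) * M ^ (- -(u' * y - h' * n'))) := by
        rw [← zpow_add, ← zpow_add]
        exact (hz _ _).symm.eq
      calc _ = τ ^ p * (M ^ (-q) * τ ^ (u * x - k' * n)) * (M ^ (-(u * y - h' * n)) *
            M ^ (- -(u' * y - h' * n'))) * τ ^ (-(u' * x - k' * n')) := by group
        _ = τ ^ p * τ ^ (u * x - k' * n) * ((M ^ (-q) * M ^ (-(u * y - h' * n)) *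
            M ^ (- -(u' * y - h' * n'))) * τ ^ (-(u' * x - k' * n'))) := by rw [c1]; group
        _ = _ := by rw [c2]; group
    rw [e1]
    congr 2
    · rw [← h1]; ring
    · rw [← h2]; ring
  have hyx : y * k' = x * h' - 1 := by rw [← hxy]; ring
  refine ⟨fun s => F ((s : ℤ) / d) (((s : ℤ) / d) * (x + y) / c), ?_, ?_, ?_⟩
  · intro s
    set u : ℤ := (s : ℤ) / d with hu
    have hu' : ((s + h : ℕ) : ℤ) / d = u + h' := by
      rw [hh]
      push_cast
      rw [Int.add_mul_ediv_left _ _ (by omega)]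
    have hn' : (u + h') * (x + y) / c = y + (u * (x + y) + 1) / c := by
      have : (u + h') * (x + y) = (u * (x + y) + 1) + c * y := by
        rw [hc]
        linear_combination hxy
      rw [this, Int.add_mul_ediv_left _ _ (by omega)]
      ring
    set n : ℤ := u * (x + y) / c with hn
    set n1 : ℤ := (u * (x + y) + 1) / c with hn1
    have hle : n ≤ n1 := Int.ediv_le_ediv hcpos (by omega)
    refine ⟨(n1 - n).toNat, ?_⟩
    simp only
    rw [hu', hn']
    have h3 := hcmp 1 0 u n (u + h') (y + n1) (n1 - n) (by linear_combination hxy - 2 * hxy) (by ring)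
    rw [zpow_one, neg_zero, zpow_zero, mul_one] at h3
    rw [h3, ← zpow_natCast, Int.toNat_of_nonneg (by omega)]
  · intro s
    set u : ℤ := (s : ℤ) / d with hu
    have hu' : ((s + k : ℕ) : ℤ) / d = u + k' := by
      rw [hk]
      push_cast
      rw [Int.add_mul_ediv_left _ _ (by omega)]
    have hn' : (u + k') * (x + y) / c = x + (u * (x + y) - 1) / c := by
      have : (u + k') * (x + y) = (u * (x + y) - 1) + c * x := by
        rw [hc]
        linear_combination -hxy
      rw [this, Int.add_mul_ediv_left _ _ (by omega)]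
      ring
    set n : ℤ := u * (x + y) / c with hn
    set n1 : ℤ := (u * (x + y) - 1) / c with hn1
    have hle : n1 ≤ n := Int.ediv_le_ediv hcpos (by omega)
    refine ⟨(n - n1).toNat, ?_⟩
    simp only
    rw [hu', hn']
    have h3 := hcmp 0 1 (u + k') (x + n1) u n (n - n1) (by ring) (by linear_combination -hxy)
    rw [zpow_zero, one_mul, zpow_neg, zpow_one] at h3
    rw [h3, ← zpow_natCast, Int.toNat_of_nonneg (by omega)]
  · intro s hs
    have hu : (s : ℤ) / d = 0 := Int.ediv_eq_zero_of_lt (by omega) (by omega)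
    have hu' : ((s + k : ℕ) : ℤ) / d = k' := by
      rw [hk]
      push_cast
      rw [Int.add_mul_ediv_left _ _ (by omega), hu, zero_add]
    have hn' : (k' : ℤ) * (x + y) / c = x - 1 := by
      have : (k' : ℤ) * (x + y) = (c - 1) + c * (x - 1) := by
        rw [hc]
        linear_combination -hxy
      rw [this, Int.add_mul_ediv_left _ _ (by omega), Int.ediv_eq_zero_of_lt (by omega) (by omega)]
      ring
    simp only
    rw [hu', hu, hn', zero_mul, Int.zero_ediv]
    have h3 := hcmp 0 1 k' (x - 1) 0 0 1 (by ring) (by linear_combination -hxy)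
    rw [zpow_zero, one_mul, zpow_neg, zpow_one, zpow_one] at h3
    exact h3

/-- the number of the levels below `s` which are not in `L` -/
def cnt (L : Finset ℕ) (s : ℕ) : ℕ := ((Finset.range s).filter fun x => x ∉ L).card

theorem cnt_succ (L : Finset ℕ) (s : ℕ) : cnt L (s + 1) = cnt L s + if s ∈ L then 0 else 1 := by
  unfold cnt
  rw [Finset.range_add_one, Finset.filter_insert]
  by_cases h : s ∈ L
  · rw [if_neg (not_not.2 h), if_pos h, add_zero]
  · rw [if_pos h, if_neg h, Finset.card_insert_of_notMem (by simp)]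

theorem cnt_zero (L : Finset ℕ) : cnt L 0 = 0 := by simp [cnt]

theorem cnt_mono (L : Finset ℕ) {s t : ℕ} (h : s ≤ t) : cnt L s ≤ cnt L t :=
  Finset.card_le_card (Finset.filter_subset_filter _ (Finset.range_subset_range.2 h))

theorem cnt_surj (L : Finset ℕ) : ∀ n v, v ≤ cnt L n → ∃ s ≤ n, cnt L s = v := by
  intro n
  induction n with
  | zero => intro v hv; exact ⟨0, le_rfl, by rw [cnt_zero] at hv ⊢; omega⟩
  | succ n ih =>
    intro v hv
    by_cases h : v ≤ cnt L n
    · obtain ⟨s, hs, hs'⟩ := ih v h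
      exact ⟨s, by omega, hs'⟩
    · refine ⟨n + 1, le_rfl, ?_⟩
      have := cnt_succ L n
      split_ifs at this <;> omega

theorem cnt_add (L : Finset ℕ) (n : ℕ) : n ≤ cnt L n + L.card := by
  unfold cnt
  have h1 := Finset.card_filter_add_card_filter_not (s := Finset.range n) (p := fun x => x ∉ L)
  rw [Finset.card_range] at h1
  have h2 : ((Finset.range n).filter fun x => ¬ (x ∉ L)).card ≤ L.card :=
    Finset.card_le_card fun x hx => not_not.1 (Finset.mem_filter.1 hx).2
  omega

/-- levels of `L` only -/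
theorem cnt_eq (L : Finset ℕ) (s t : ℕ) (hst : s ≤ t) (h : ∀ x, s ≤ x → x < t → x ∈ L) :
    cnt L t = cnt L s := by
  induction t, hst using Nat.le_induction with
  | base => rfl
  | succ t hst ih =>
    rw [cnt_succ, if_pos (h t hst (by omega)), add_zero]
    exact ih fun x h1 h2 => h x h1 (by omega)

end Pool.Agent.Helper94.T1
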