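import Pool.Agent.Helper94.T1.ConeComp
import Pool.Agent.Helper94.T1.Lines

/-!
# Dissections of a rectangle into squares, in a group with an invariant preorder

Disjoint squares in the `k × h` rectangle; the missing cells `(i, j)` have their levels `i + j` in `L`.  If the sum
of the sides and the number of the levels is smaller than `h + k + gcd h k`, then `M ^ (h / d) < τ ^ (k / d)` is
impossible.
-/

set_option autoImplicit false
set_option linter.unusedSectionVars false

open Finset

namespace Pool.Agent.Helper94.T1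

open Pool.Agent.Helper52.PG

/-- the columns with the same residue are joined -/
theorem reach {h k : ℕ} (hh : 0 < h) (s : ℕ) : ∃ n : ℕ, (s + n * h) % (h + k) = k + s % Nat.gcd h k := by
  set d := Nat.gcd h k with hd
  have hd0 : 0 < d := Nat.gcd_pos_of_pos_left _ hh
  have hdh : d ≤ h := Nat.le_of_dvd hh (Nat.gcd_dvd_left h k)
  have hg : Nat.gcd h (h + k) = d := by rw [Nat.gcd_self_add_right]
  have hrd : s % d < h := (Nat.mod_lt s hd0).trans_le hdh
  have hb := Nat.gcd_eq_gcd_ab h (h + k)
  rw [hg] at hb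
  set x := Nat.gcdA h (h + k)
  set y := Nat.gcdB h (h + k)
  obtain ⟨c, hc⟩ : (d : ℤ) ∣ k := Int.natCast_dvd_natCast.2 (Nat.gcd_dvd_right h k)
  have hs : (s : ℤ) = d * ((s / d : ℕ) : ℤ) + ((s % d : ℕ) : ℤ) := by
    exact_mod_cast (Nat.div_add_mod s d).symm
  generalize ((s / d : ℕ) : ℤ) = q at hs
  generalize s % d = r at hs hrd ⊢
  set t : ℤ := c - q with ht
  have hpos : (0 : ℤ) < ((h + k : ℕ) : ℤ) := by
    push_cast
    omega
  refine ⟨((x * t) % ((h + k : ℕ) : ℤ)).toNat, ?_⟩
  have hn : ((((x * t) % ((h + k : ℕ) : ℤ)).toNat : ℕ) : ℤ) = (x * t) % ((h + k : ℕ) : ℤ) :=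
    Int.toNat_of_nonneg (Int.emod_nonneg _ hpos.ne')
  set n := ((x * t) % ((h + k : ℕ) : ℤ)).toNat
  have hdiv := Int.emod_add_mul_ediv (x * t) ((h + k : ℕ) : ℤ)
  have h1 : ((s + n * h : ℕ) : ℤ) ≡ ((k + r : ℕ) : ℤ) [ZMOD ((h + k : ℕ) : ℤ)] := by
    rw [Int.modEq_iff_dvd]
    refine ⟨h * ((x * t) / ((h + k : ℕ) : ℤ)) + y * t, ?_⟩
    rw [← hn] at hdiv
    push_cast at hdiv hb hs ⊢
    linear_combination (-(h : ℤ)) * hdiv + t * hb + hc - hs - (d : ℤ) * ht
  have h2 := Int.natCast_modEq_iff.1 h1
  have h3 : (k + r) % (h + k) = k + r := Nat.mod_eq_of_lt (by omega)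
  rw [← h3]
  exact h2

/-- **Dissections with missing cells.** -/
theorem levels {E K : Type*} [Fintype E] [Group K] {P P' : Set K} (hP : Cone P P') {h k : ℕ} (hh : 0 < h)
    (hk : 0 < k) {al yt sz : E → ℕ} (hsz : ∀ e, 0 < sz e) (hal : ∀ e, al e + sz e ≤ k)
    (hyt : ∀ e, yt e + sz e ≤ h)
    (hdis : ∀ e e', e ≠ e' → al e + sz e ≤ al e' ∨ al e' + sz e' ≤ al e ∨ yt e + sz e ≤ yt e' ∨
      yt e' + sz e' ≤ yt e)
    (L : Finset ℕ)
    (hL : ∀ i < k, ∀ j < h, i + j ∈ L ∨ ∃ e, (al e ≤ i ∧ i < al e + sz e) ∧ yt e ≤ j ∧ j < yt e + sz e)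
    (hcol0 : ∀ i < k, ∃ e, al e ≤ i ∧ i < al e + sz e)
    (hsum : ∑ e, sz e + L.card < h + k + Nat.gcd h k)
    (St Sh Tl Tr : E → K) {τ M : K} (hcomm : Commute τ M) (hM : M ∈ P)
    (H : ∀ e, (Sh e * (St e)⁻¹)⁻¹ * (Tr e * (Tl e)⁻¹) ∈ P)
    (hcol : ∀ e e' i, al e ≤ i → i < al e + sz e → al e' ≤ i → i < al e' + sz e' → yt e + sz e ≤ yt e' →
      (∀ e'', al e'' ≤ i → i < al e'' + sz e'' → yt e + sz e ≤ yt e'' → yt e' ≤ yt e'') →
      (St e')⁻¹ * Sh e ∈ P)
    (hbot : ∀ e i, al e ≤ i → i < al e + sz e →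
      (∀ e'', al e'' ≤ i → i < al e'' + sz e'' → yt e ≤ yt e'') → (St e)⁻¹ ∈ P)
    (htop : ∀ e i, al e ≤ i → i < al e + sz e →
      (∀ e'', al e'' ≤ i → i < al e'' + sz e'' → yt e'' ≤ yt e) → τ⁻¹ * Sh e ∈ P)
    (hrow : ∀ e e' j, yt e ≤ j → j < yt e + sz e → yt e' ≤ j → j < yt e' + sz e' → al e + sz e ≤ al e' →
      (∀ e'', yt e'' ≤ j → j < yt e'' + sz e'' → al e + sz e ≤ al e'' → al e' ≤ al e'') →
      (Tr e)⁻¹ * Tl e' ∈ P)
    (hleft : ∀ e j, yt e ≤ j → j < yt e + sz e →
      (∀ e'', yt e'' ≤ j → j < yt e'' + sz e'' → al e ≤ al e'') → Tl e ∈ P)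
    (hright : ∀ e j, yt e ≤ j → j < yt e + sz e →
      (∀ e'', yt e'' ≤ j → j < yt e'' + sz e'' → al e'' ≤ al e) → (Tr e)⁻¹ * M ∈ P)
    (hlt : τ ^ (k / Nat.gcd h k) * (M ^ (h / Nat.gcd h k))⁻¹ ∈ P') : 1 ∈ P' := by
  classical
  set d := Nat.gcd h k with hd
  have hd0 : 0 < d := Nat.gcd_pos_of_pos_left _ hh
  have hh' : h = d * (h / d) := (Nat.mul_div_cancel' (Nat.gcd_dvd_left h k)).symm
  have hk' : k = d * (k / d) := (Nat.mul_div_cancel' (Nat.gcd_dvd_right h k)).symm
  have hdh : d ≤ h := Nat.le_of_dvd hh (Nat.gcd_dvd_left h k)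
  have hdk : d ≤ k := Nat.le_of_dvd hk (Nat.gcd_dvd_right h k)
  obtain ⟨f, hf1, hf2, hf3⟩ := potential hcomm hd0 hh' hk' (Nat.div_pos hdh hd0) (Nat.div_pos hdk hd0)
    (Nat.coprime_div_gcd_div_gcd hd0)
  have hle : τ ^ (k / d) * (M ^ (h / d))⁻¹ ∈ P := hP.sub hlt
  have hmodh : ∀ x, (x + h) % d = x % d := by
    intro x
    obtain ⟨c, hc⟩ := Nat.gcd_dvd_left h k
    rw [← hd] at hc
    rw [hc, Nat.add_mul_mod_self_left]
  have hmodk : ∀ x, (x + k) % d = x % d := by
    intro x
    obtain ⟨c, hc⟩ := Nat.gcd_dvd_right h k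
    rw [← hd] at hc
    rw [hc, Nat.add_mul_mod_self_left]
  have hpow : ∀ n : ℕ, (τ ^ (k / d) * (M ^ (h / d))⁻¹) ^ n ∈ P := by
    intro n
    induction n with
    | zero => rw [pow_zero]; exact hP.one
    | succ n ih => rw [pow_succ]; exact hP.mul _ ih _ hle
  -- `f (s + h) ≤ τ * f s`, `f s ≤ M⁻¹ * f (s + k)`
  have hcj : ∀ {u v : K}, v * u⁻¹ ∈ P → u⁻¹ * v ∈ P := by
    intro u v hv
    have := hP.conj u⁻¹ _ hv
    have e : u⁻¹ * (v * u⁻¹) * u⁻¹⁻¹ = u⁻¹ * v := by group
    rwa [e] at this
  have hcj' : ∀ {u v : K}, v * u⁻¹ ∈ P' → u⁻¹ * v ∈ P' := by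
    intro u v hv
    have := hP.conj' u⁻¹ _ hv
    have e : u⁻¹ * (v * u⁻¹) * u⁻¹⁻¹ = u⁻¹ * v := by group
    rwa [e] at this
  have hfh : ∀ s, (f (s + h))⁻¹ * (τ * f s) ∈ P := by
    intro s
    obtain ⟨n, hn⟩ := hf1 s
    exact hcj (by rw [hn]; exact hpow n)
  have hfk : ∀ s, (f s)⁻¹ * (M⁻¹ * f (s + k)) ∈ P := by
    intro s
    obtain ⟨n, hn⟩ := hf2 s
    exact hcj (by rw [hn]; exact hpow n)
  have hfk' : ∀ s < d, (f s)⁻¹ * (M⁻¹ * f (s + k)) ∈ P' := by
    intro s hs
    exact hcj' (by rw [hf3 s hs]; exact hlt)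
  -- the cells
  let Ω := (Σ e, Fin (sz e)) ⊕ Fin h
  -- the columns
  let ρ : Equiv.Perm (Fin (h + k)) :=
    { toFun := fun s => if hs : (s : ℕ) < k then ⟨s + h, by omega⟩ else ⟨s - k, by omega⟩
      invFun := fun s => if hs : (s : ℕ) < h then ⟨s + k, by omega⟩ else ⟨s - h, by omega⟩
      left_inv := by
        intro s
        by_cases hs : (s : ℕ) < k
        · simp only [hs, dif_pos]
          rw [dif_neg (by omega)]
          exact Fin.ext (by simp)
        · simp only [hs, dif_neg, not_false_eq_true]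
          rw [dif_pos (by have := s.2; omega)]
          exact Fin.ext (by simp only; omega)
      right_inv := by
        intro s
        by_cases hs : (s : ℕ) < h
        · simp only [hs, dif_pos]
          rw [dif_neg (by omega)]
          exact Fin.ext (by simp)
        · simp only [hs, dif_neg, not_false_eq_true]
          rw [dif_pos (by have := s.2; omega)]
          exact Fin.ext (by simp only; omega) }
  have hρ1 : ∀ s : Fin (h + k), (s : ℕ) < k → ((ρ s : Fin (h + k)) : ℕ) = s + h := by
    intro s hs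
    show ((if hs : (s : ℕ) < k then (⟨s + h, by omega⟩ : Fin (h + k)) else ⟨s - k, by omega⟩ : Fin (h + k)) : ℕ) = _
    rw [dif_pos hs]
  have hρ2 : ∀ s : Fin (h + k), ¬ (s : ℕ) < k → ((ρ s : Fin (h + k)) : ℕ) = s - k := by
    intro s hs
    show ((if hs : (s : ℕ) < k then (⟨s + h, by omega⟩ : Fin (h + k)) else ⟨s - k, by omega⟩ : Fin (h + k)) : ℕ) = _
    rw [dif_neg hs]
  let lc : Ω → Fin (h + k) := fun w => match w with
    | Sum.inl w => ⟨al w.1 + w.2, by have := hal w.1; have := w.2.2; omega⟩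
    | Sum.inr j => ⟨k + j, by have := j.2; omega⟩
  let loc : Ω → ℕ := fun w => match w with
    | Sum.inl w => yt w.1
    | Sum.inr _ => 0
  let hic : Ω → ℕ := fun w => match w with
    | Sum.inl w => yt w.1 + sz w.1
    | Sum.inr _ => 1
  have hlck : ∀ w : Σ e, Fin (sz e), ((lc (Sum.inl w) : Fin (h + k)) : ℕ) < k := by
    intro w
    have := hal w.1
    have := w.2.2
    show al w.1 + w.2 < k
    omega
  have hltc : ∀ w, loc w < hic w := by
    rintro (w | j)
    · have := hsz w.1
      show yt w.1 < yt w.1 + sz w.1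
      omega
    · exact Nat.zero_lt_one
  have hdisC : ∀ w w' : Ω, lc w = lc w' → w ≠ w' → hic w ≤ loc w' ∨ hic w' ≤ loc w := by
    rintro (w | j) (w' | j') h1 h2
    · have h3 : al w.1 + w.2 = al w'.1 + w'.2 := congrArg Fin.val h1
      by_cases he : w.1 = w'.1
      · exfalso
        apply h2
        obtain ⟨e, c⟩ := w
        obtain ⟨e', c'⟩ := w'
        simp only at he
        subst he
        have h4 : c = c' := Fin.ext (by simp only at h3; omega)
        rw [h4]
      · have h4 := hdis _ _ he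
        have := w.2.2
        have := w'.2.2
        show yt w.1 + sz w.1 ≤ yt w'.1 ∨ yt w'.1 + sz w'.1 ≤ yt w.1
        omega
    · exfalso
      have h3 : al w.1 + w.2 = k + j' := congrArg Fin.val h1
      have := hal w.1
      have := w.2.2
      omega
    · exfalso
      have h3 : k + j = al w'.1 + w'.2 := congrArg Fin.val h1
      have := hal w'.1
      have := w'.2.2
      omega
    · exfalso
      have h3 : k + (j : ℕ) = k + j' := congrArg Fin.val h1
      exact h2 (congrArg Sum.inr (Fin.ext (by omega)))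
  obtain ⟨a, ha⟩ := next_line ρ lc loc hic hltc hdisC (by
      intro s
      by_cases hs : (s : ℕ) < k
      · obtain ⟨e, he1, he2⟩ := hcol0 s hs
        refine ⟨Sum.inl ⟨e, ⟨s - al e, by omega⟩⟩, Fin.ext ?_⟩
        show al e + (s - al e) = s
        omega
      · refine ⟨Sum.inr ⟨s - k, by have := s.2; omega⟩, Fin.ext ?_⟩
        show k + (s - k) = (s : ℕ)
        omega)
  -- the rows
  let lr : Ω → Fin h := fun w => match w with
    | Sum.inl w => ⟨yt w.1 + w.2, by have := hyt w.1; have := w.2.2; omega⟩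
    | Sum.inr j => j
  let lor : Ω → ℕ := fun w => match w with
    | Sum.inl w => al w.1
    | Sum.inr _ => k
  let hir : Ω → ℕ := fun w => match w with
    | Sum.inl w => al w.1 + sz w.1
    | Sum.inr _ => k + 1
  obtain ⟨b, hb⟩ := next_line (Equiv.refl (Fin h)) lr lor hir (by
      rintro (w | j)
      · have := hsz w.1
        show al w.1 < al w.1 + sz w.1
        omega
      · exact Nat.lt_succ_self k) (by
      rintro (w | j) (w' | j') h1 h2
      · have h3 : yt w.1 + w.2 = yt w'.1 + w'.2 := congrArg Fin.val h1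
        by_cases he : w.1 = w'.1
        · exfalso
          apply h2
          obtain ⟨e, c⟩ := w
          obtain ⟨e', c'⟩ := w'
          simp only at he
          subst he
          have h4 : c = c' := Fin.ext (by simp only at h3; omega)
          rw [h4]
        · have h4 := hdis _ _ he
          have := w.2.2
          have := w'.2.2
          show al w.1 + sz w.1 ≤ al w'.1 ∨ al w'.1 + sz w'.1 ≤ al w.1
          omega
      · left
        exact hal w.1
      · right
        exact hal w'.1
      · exfalso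
        have h3 : (j : ℕ) = j' := congrArg Fin.val h1
        exact h2 (congrArg Sum.inr (Fin.ext h3))) (fun j => ⟨Sum.inr j, rfl⟩)
  -- missing cells
  have hfillc : ∀ i < k, ∀ y1 y2, y1 ≤ y2 → y2 ≤ h →
      (∀ e, al e ≤ i → i < al e + sz e → ∀ y, y1 ≤ y → y < y2 → ¬ (yt e ≤ y ∧ y < yt e + sz e)) →
      cnt L (i + y2) = cnt L (i + y1) := by
    intro i hi y1 y2 h12 h2 hno
    refine cnt_eq L _ _ (by omega) fun x hx1 hx2 => ?_
    rcases hL i hi (x - i) (by omega) with h3 | ⟨e, he, he'⟩
    · have e : i + (x - i) = x := by omega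
      rwa [e] at h3
    · exact absurd he' (hno e he.1 he.2 _ (by omega) (by omega))
  have hfillr : ∀ j < h, ∀ x1 x2, x1 ≤ x2 → x2 ≤ k →
      (∀ e, yt e ≤ j → j < yt e + sz e → ∀ x, x1 ≤ x → x < x2 → ¬ (al e ≤ x ∧ x < al e + sz e)) →
      cnt L (x2 + j) = cnt L (x1 + j) := by
    intro j hj x1 x2 h12 h2 hno
    refine cnt_eq L _ _ (by omega) fun x hx1 hx2 => ?_
    rcases hL (x - j) (by omega) j hj with h3 | ⟨e, he, he'⟩
    · have e : (x - j) + j = x := by omega
      rwa [e] at h3
    · exact absurd he (hno e he'.1 he'.2 _ (by omega) (by omega))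
  -- cells of a square
  have hcc : ∀ e i, al e ≤ i → i < al e + sz e → ∃ w : Σ e, Fin (sz e), w.1 = e ∧
      ((lc (Sum.inl w) : Fin (h + k)) : ℕ) = i := by
    intro e i h1 h2
    refine ⟨⟨e, ⟨i - al e, by omega⟩⟩, rfl, ?_⟩
    show al e + (i - al e) = i
    omega
  have hcr : ∀ e j, yt e ≤ j → j < yt e + sz e → ∃ w : Σ e, Fin (sz e), w.1 = e ∧
      ((lr (Sum.inl w) : Fin h) : ℕ) = j := by
    intro e j h1 h2
    refine ⟨⟨e, ⟨j - yt e, by omega⟩⟩, rfl, ?_⟩
    show yt e + (j - yt e) = j
    omega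
  -- times
  let tm : Ω → ℕ := fun w => match w with
    | Sum.inl w => al w.1 + yt w.1 + w.2
    | Sum.inr j => k + j
  let tf : Ω → ℕ := fun w => match w with
    | Sum.inl w => al w.1 + yt w.1 + w.2 + sz w.1
    | Sum.inr j => j
  have hfirst : ∀ w : Ω, (∀ w', lc w' = lc w → loc w ≤ loc w') → cnt L (tm w) = cnt L (lc w : Fin (h + k)) := by
    rintro (w | j) hw
    · have h0 := hlck w
      have h1 := hfillc (lc (Sum.inl w) : Fin (h + k)) h0 0 (yt w.1) (by omega) (by
        have := hyt w.1
        omega) (by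
        intro e he1 he2 y _ hy ⟨hy1, hy2⟩
        obtain ⟨w', hw1, hw2⟩ := hcc e _ he1 he2
        have h2 := hw (Sum.inl w') (Fin.ext hw2)
        have h3 : yt w.1 ≤ yt w'.1 := h2
        rw [hw1] at h3
        omega)
      show cnt L (al w.1 + yt w.1 + w.2) = _
      have e1 : al w.1 + yt w.1 + w.2 = (al w.1 + w.2) + yt w.1 := by ring
      rw [e1]
      exact h1
    · rfl
  have hta : ∀ w, cnt L (tm (a w)) = cnt L (tf w) := by
    intro w
    rcases ha w with ⟨h1, h2, h3⟩ | ⟨h1, h2, h3⟩
    · -- the same column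
      revert h1 h2 h3
      rcases w with w | j
      · rcases a (Sum.inl w) with w' | j'
        · intro h1 h2 h3
          have h4 : al w'.1 + w'.2 = al w.1 + w.2 := congrArg Fin.val h1
          have h5 : yt w.1 + sz w.1 ≤ yt w'.1 := h2
          have h0 := hlck w
          have h6 := hfillc (al w.1 + w.2) h0 _ _ h5 (by have := hyt w'.1; omega) (by
            intro e he1 he2 y hy1 hy2 ⟨hy3, hy4⟩
            obtain ⟨w'', hw1, hw2⟩ := hcc e _ he1 he2
            have h7 : e ≠ w.1 := by
              rintro rfl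
              omega
            have h8 := hdis _ _ h7
            have := w.2.2
            have h9 := h3 (Sum.inl w'') (Fin.ext hw2) (by
              show yt w.1 + sz w.1 ≤ yt w''.1
              rw [hw1]
              omega)
            have h10 : yt w'.1 ≤ yt w''.1 := h9
            rw [hw1] at h10
            omega)
          show cnt L (al w'.1 + yt w'.1 + w'.2) = cnt L (al w.1 + yt w.1 + w.2 + sz w.1)
          have e1 : al w'.1 + yt w'.1 + w'.2 = (al w.1 + w.2) + yt w'.1 := by omega
          have e2 : al w.1 + yt w.1 + w.2 + sz w.1 = (al w.1 + w.2) + (yt w.1 + sz w.1) := by ring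
          rw [e1, e2]
          exact h6
        · intro h1
          exfalso
          have h4 : k + j' = al w.1 + w.2 := congrArg Fin.val h1
          have := hlck w
          have h5 : al w.1 + w.2 < k := this
          omega
      · rcases a (Sum.inr j) with w' | j'
        · intro h1
          exfalso
          have h4 : al w'.1 + w'.2 = k + j := congrArg Fin.val h1
          have h5 : al w'.1 + w'.2 < k := hlck w'
          omega
        · intro h1 h2
          exact absurd h2 (by show ¬ (1 ≤ 0); omega)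
    · -- the next column
      have h4 := hfirst (a w) (fun w' hw' => h3 w' (hw'.trans h2))
      rw [h4, h2]
      revert h1
      rcases w with w | j
      · intro h1
        have h0 := hlck w
        have e1 := hρ1 (lc (Sum.inl w)) h0
        rw [e1]
        have h6 := hfillc (lc (Sum.inl w) : Fin (h + k)) h0 (yt w.1 + sz w.1) h (hyt w.1) le_rfl (by
            intro e he1 he2 y hy1 hy2 ⟨hy3, hy4⟩
            obtain ⟨w'', hw1, hw2⟩ := hcc e _ he1 he2
            have h8 := h1 (Sum.inl w'') (Fin.ext hw2) (by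
              intro h7
              have h9 : w'' = w := Sum.inl.inj h7
              rw [← hw1, h9] at hy4
              omega)
            have h10 : yt w''.1 + sz w''.1 ≤ yt w.1 := h8
            rw [hw1] at h10
            omega)
        rw [h6]
        show cnt L (al w.1 + w.2 + (yt w.1 + sz w.1)) = cnt L (al w.1 + yt w.1 + w.2 + sz w.1)
        congr 1
        ring
      · intro _
        have e1 := hρ2 (lc (Sum.inr j)) (by show ¬ (k + (j : ℕ) < k); omega)
        rw [e1]
        show cnt L (k + j - k) = cnt L j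
        congr 1
        omega
  have htb : ∀ w, cnt L (tm (b w)) = cnt L (tf w) := by
    intro w
    rcases hb w with ⟨h1, h2, h3⟩ | ⟨h1, h2, h3⟩
    · revert h1 h2 h3
      rcases w with w | j
      · have hc := w.2.2
        have hyw := hyt w.1
        rcases b (Sum.inl w) with w' | j'
        · intro h1 h2 h3
          have h4 : yt w'.1 + w'.2 = yt w.1 + w.2 := congrArg Fin.val h1
          have h5 : al w.1 + sz w.1 ≤ al w'.1 := h2
          have h6 := hfillr (yt w.1 + w.2) (by omega) _ _ h5 (by have := hal w'.1; omega) (by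
            intro e he1 he2 y hy1 hy2 ⟨hy3, hy4⟩
            obtain ⟨w'', hw1, hw2⟩ := hcr e _ he1 he2
            have h7 : e ≠ w.1 := by
              rintro rfl
              omega
            have h8 := hdis _ _ h7
            have h9 := h3 (Sum.inl w'') (Fin.ext hw2) (by
              show al w.1 + sz w.1 ≤ al w''.1
              rw [hw1]
              omega)
            have h10 : al w'.1 ≤ al w''.1 := h9
            rw [hw1] at h10
            omega)
          show cnt L (al w'.1 + yt w'.1 + w'.2) = cnt L (al w.1 + yt w.1 + w.2 + sz w.1)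
          have e1 : al w'.1 + yt w'.1 + w'.2 = al w'.1 + (yt w.1 + w.2) := by omega
          have e2 : al w.1 + yt w.1 + w.2 + sz w.1 = (al w.1 + sz w.1) + (yt w.1 + w.2) := by ring
          rw [e1, e2]
          exact h6
        · intro h1 h2 h3
          have h4 : (j' : ℕ) = yt w.1 + w.2 := congrArg Fin.val h1
          have h6 := hfillr (yt w.1 + w.2) (by omega) (al w.1 + sz w.1) k (hal w.1) le_rfl (by
            intro e he1 he2 y hy1 hy2 ⟨hy3, hy4⟩
            obtain ⟨w'', hw1, hw2⟩ := hcr e _ he1 he2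
            have h7 : e ≠ w.1 := by
              rintro rfl
              omega
            have h8 := hdis _ _ h7
            have h9 := h3 (Sum.inl w'') (Fin.ext hw2) (by
              show al w.1 + sz w.1 ≤ al w''.1
              rw [hw1]
              omega)
            have h10 : k ≤ al w''.1 := h9
            rw [hw1] at h10
            omega)
          show cnt L (k + j') = cnt L (al w.1 + yt w.1 + w.2 + sz w.1)
          have e2 : al w.1 + yt w.1 + w.2 + sz w.1 = (al w.1 + sz w.1) + (yt w.1 + w.2) := by ring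
          rw [h4, e2]
          exact h6
      · intro h1 h2
        exfalso
        revert h2
        rcases b (Sum.inr j) with w' | j'
        · intro h2
          have h3 : k + 1 ≤ al w'.1 := h2
          have := hal w'.1
          omega
        · intro h2
          have h3 : k + 1 ≤ k := h2
          omega
    · rcases w with w | j
      · exfalso
        have h4 := h1 (Sum.inr (lr (Sum.inl w))) rfl (by intro h; cases h)
        have h5 : k + 1 ≤ al w.1 := h4
        have := hal w.1
        omega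
      · revert h2 h3
        rcases b (Sum.inr j) with w' | j'
        · intro h2 h3
          have h4 : yt w'.1 + w'.2 = (j : ℕ) := congrArg Fin.val h2
          have h6 := hfillr j j.2 0 (al w'.1) (by omega) (by have := hal w'.1; omega) (by
            intro e he1 he2 y hy1 hy2 ⟨hy3, hy4⟩
            obtain ⟨w'', hw1, hw2⟩ := hcr e _ he1 he2
            have h9 := h3 (Sum.inl w'') (Fin.ext hw2)
            have h10 : al w'.1 ≤ al w''.1 := h9
            rw [hw1] at h10
            omega)
          rw [zero_add] at h6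
          show cnt L (al w'.1 + yt w'.1 + w'.2) = cnt L j
          have e1 : al w'.1 + yt w'.1 + w'.2 = al w'.1 + j := by omega
          rw [e1]
          exact h6
        · intro h2 h3
          have h4 : (j' : ℕ) = j := congrArg Fin.val h2
          have h6 := hfillr j j.2 0 k (by omega) le_rfl (by
            intro e he1 he2 y hy1 hy2 ⟨hy3, hy4⟩
            obtain ⟨w'', hw1, hw2⟩ := hcr e _ he1 he2
            have h9 := h3 (Sum.inl w'') (Fin.ext hw2)
            have h10 : k ≤ al w''.1 := h9
            rw [hw1] at h10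
            omega)
          rw [zero_add] at h6
          show cnt L (k + j') = cnt L j
          rw [h4]
          exact h6
  have htm : ∀ w : Ω, tm w ≤ h + k - 1 := by
    rintro (w | j)
    · have := hal w.1
      have := hyt w.1
      have := w.2.2
      show al w.1 + yt w.1 + w.2 ≤ h + k - 1
      omega
    · have := j.2
      show k + (j : ℕ) ≤ h + k - 1
      omega
  have hlast : ∀ v : Ω, ∃ w, lc w = lc v ∧ ∀ w', lc w' = lc v → loc w' ≤ loc w := by
    intro v
    obtain ⟨w, hw1, hw2⟩ := Set.exists_max_image {w | lc w = lc v} loc (Set.toFinite _) ⟨v, rfl⟩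
    exact ⟨w, hw1, hw2⟩
  have hfst : ∀ s : Fin (h + k), ∃ w, lc w = s ∧ ∀ w', lc w' = s → loc w ≤ loc w' := by
    intro s
    have hne : {w : Ω | lc w = s}.Nonempty := by
      by_cases hs : (s : ℕ) < k
      · obtain ⟨e, he1, he2⟩ := hcol0 s hs
        obtain ⟨w, -, hw⟩ := hcc e s he1 he2
        exact ⟨Sum.inl w, Fin.ext hw⟩
      · refine ⟨Sum.inr ⟨s - k, by have := s.2; omega⟩, Fin.ext ?_⟩
        show k + (s - k) = (s : ℕ)
        omega
    obtain ⟨w, hw1, hw2⟩ := Set.exists_min_image {w | lc w = s} loc (Set.toFinite _) hne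
    exact ⟨w, hw1, hw2⟩
  have hmono : ∀ w w' : Ω, lc w = lc w' → loc w = loc w' → w = w' := by
    intro w w' h1 h2
    by_contra h3
    have := hltc w
    have := hltc w'
    rcases hdisC w w' h1 h3 with h4 | h4 <;> omega
  -- labels
  let s : Ω → K := fun w => match w with
    | Sum.inl w => St w.1 * f (al w.1 + w.2)
    | Sum.inr j => f (k + j)
  let s' : Ω → K := fun w => match w with
    | Sum.inl w => Sh w.1 * f (al w.1 + w.2)
    | Sum.inr j => M⁻¹ * f (k + j)
  let t : Ω → K := fun w => match w with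
    | Sum.inl w => Tl w.1
    | Sum.inr _ => M
  let t' : Ω → K := fun w => match w with
    | Sum.inl w => Tr w.1
    | Sum.inr _ => 1
  have hcell : ∀ w, (s' w * (s w)⁻¹)⁻¹ * (t' w * (t w)⁻¹) ∈ P := by
    rintro (w | j)
    · show (Sh w.1 * f (al w.1 + w.2) * (St w.1 * f (al w.1 + w.2))⁻¹)⁻¹ * (Tr w.1 * (Tl w.1)⁻¹) ∈ P
      have e : Sh w.1 * f (al w.1 + w.2) * (St w.1 * f (al w.1 + w.2))⁻¹ = Sh w.1 * (St w.1)⁻¹ := by group
      rw [e]
      exact H w.1
    · show (M⁻¹ * f (k + j) * (f (k + j))⁻¹)⁻¹ * (1 * M⁻¹) ∈ P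
      have e : (M⁻¹ * f (k + j) * (f (k + j))⁻¹)⁻¹ * (1 * M⁻¹) = 1 := by group
      rw [e]
      exact hP.one
  -- the first cell of a column
  have hsf : ∀ w : Ω, (∀ w', lc w' = lc w → loc w ≤ loc w') → (s w)⁻¹ * f (lc w : Fin (h + k)) ∈ P := by
    rintro (w | j) hw
    · have h1 := hbot w.1 (al w.1 + w.2) (by omega) (by have := w.2.2; omega) (by
        intro e he1 he2
        obtain ⟨w', hw1, hw2⟩ := hcc e _ he1 he2
        have h2 := hw (Sum.inl w') (Fin.ext hw2)
        have h3 : yt w.1 ≤ yt w'.1 := h2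
        rwa [hw1] at h3)
      show (St w.1 * f (al w.1 + w.2))⁻¹ * f (al w.1 + w.2) ∈ P
      have e : (St w.1 * f (al w.1 + w.2))⁻¹ * f (al w.1 + w.2) =
          (f (al w.1 + w.2))⁻¹ * (St w.1)⁻¹ * (f (al w.1 + w.2))⁻¹⁻¹ := by group
      rw [e]
      exact hP.conj _ _ h1
    · show (f (k + j))⁻¹ * f (k + j) ∈ P
      rw [inv_mul_cancel]
      exact hP.one
  have hHs : ∀ w, (s (a w))⁻¹ * s' w ∈ P ∧ ∀ j : Fin h, w = Sum.inr j → (j : ℕ) < d →
      (s (a w))⁻¹ * s' w ∈ P' := by
    intro w
    rcases ha w with ⟨h1, h2, h3⟩ | ⟨h1, h2, h3⟩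
    · revert h1 h2 h3
      rcases w with w | j
      · rcases a (Sum.inl w) with w' | j'
        · intro h1 h2 h3
          refine ⟨?_, fun j hj => by cases hj⟩
          have h4 : al w'.1 + w'.2 = al w.1 + w.2 := congrArg Fin.val h1
          have h5 : yt w.1 + sz w.1 ≤ yt w'.1 := h2
          have hc := w.2.2
          have hc' := w'.2.2
          have h6 := hcol w.1 w'.1 (al w.1 + w.2) (by omega) (by omega) (by omega) (by omega) h5 (by
            intro e he1 he2 he3
            obtain ⟨w'', hw1, hw2⟩ := hcc e _ he1 he2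
            have h9 := h3 (Sum.inl w'') (Fin.ext hw2) (by
              show yt w.1 + sz w.1 ≤ yt w''.1
              rw [hw1]
              exact he3)
            have h10 : yt w'.1 ≤ yt w''.1 := h9
            rwa [hw1] at h10)
          show (St w'.1 * f (al w'.1 + w'.2))⁻¹ * (Sh w.1 * f (al w.1 + w.2)) ∈ P
          rw [h4]
          have e : (St w'.1 * f (al w.1 + w.2))⁻¹ * (Sh w.1 * f (al w.1 + w.2)) =
              (f (al w.1 + w.2))⁻¹ * ((St w'.1)⁻¹ * Sh w.1) * (f (al w.1 + w.2))⁻¹⁻¹ := by group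
          rw [e]
          exact hP.conj _ _ h6
        · intro h1
          exfalso
          have h4 : k + j' = al w.1 + w.2 := congrArg Fin.val h1
          have h5 : al w.1 + w.2 < k := hlck w
          omega
      · rcases a (Sum.inr j) with w' | j'
        · intro h1
          exfalso
          have h4 : al w'.1 + w'.2 = k + j := congrArg Fin.val h1
          have h5 : al w'.1 + w'.2 < k := hlck w'
          omega
        · intro h1 h2
          exact absurd h2 (by show ¬ (1 ≤ 0); omega)
    · have h4 := hsf (a w) (fun w' hw' => h3 w' (hw'.trans h2))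
      rw [h2] at h4
      revert h1 h4
      rcases w with w | j
      · intro h1 h4
        refine ⟨?_, fun j hj => by cases hj⟩
        have h0 := hlck w
        have e1 := hρ1 (lc (Sum.inl w)) h0
        rw [e1] at h4
        have h5 := htop w.1 (al w.1 + w.2) (by omega) (by have := w.2.2; omega) (by
          intro e he1 he2
          obtain ⟨w', hw1, hw2⟩ := hcc e _ he1 he2
          by_cases hww : w' = w
          · rw [← hw1, hww]
          · have h8 := h1 (Sum.inl w') (Fin.ext hw2) (fun h7 => hww (Sum.inl.inj h7))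
            have h10 : yt w'.1 + sz w'.1 ≤ yt w.1 := h8
            rw [hw1] at h10
            omega)
        have h6 := hfh (al w.1 + w.2)
        have h7 : (f (al w.1 + w.2))⁻¹ * (τ⁻¹ * Sh w.1) * (f (al w.1 + w.2))⁻¹⁻¹ ∈ P := hP.conj _ _ h5
        have h8 := hP.mul _ (hP.mul _ h4 _ h6) _ h7
        show (s (a (Sum.inl w)))⁻¹ * (Sh w.1 * f (al w.1 + w.2)) ∈ P
        have e : (s (a (Sum.inl w)))⁻¹ * f (((lc (Sum.inl w) : Fin (h + k)) : ℕ) + h) *
            ((f (al w.1 + w.2 + h))⁻¹ * (τ * f (al w.1 + w.2))) *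
            ((f (al w.1 + w.2))⁻¹ * (τ⁻¹ * Sh w.1) * (f (al w.1 + w.2))⁻¹⁻¹) =
            (s (a (Sum.inl w)))⁻¹ * (Sh w.1 * f (al w.1 + w.2)) := by
          show (s (a (Sum.inl w)))⁻¹ * f (al w.1 + w.2 + h) *
            ((f (al w.1 + w.2 + h))⁻¹ * (τ * f (al w.1 + w.2))) *
            ((f (al w.1 + w.2))⁻¹ * (τ⁻¹ * Sh w.1) * (f (al w.1 + w.2))⁻¹⁻¹) = _
          group
        rw [← e]
        exact h8
      · intro _ h4
        have e1 : ((ρ (lc (Sum.inr j)) : Fin (h + k)) : ℕ) = j := by
          rw [hρ2 (lc (Sum.inr j)) (by show ¬ (k + (j : ℕ) < k); omega)]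
          show k + j - k = (j : ℕ)
          omega
        rw [e1] at h4
        have e : (s (a (Sum.inr j)))⁻¹ * f j * ((f j)⁻¹ * (M⁻¹ * f (j + k))) =
            (s (a (Sum.inr j)))⁻¹ * s' (Sum.inr j) := by
          show _ = (s (a (Sum.inr j)))⁻¹ * (M⁻¹ * f (k + j))
          rw [add_comm k]
          group
        refine ⟨?_, ?_⟩
        · rw [← e]
          exact hP.mul _ h4 _ (hfk j)
        · intro j' hj hjd
          have hj' : j = j' := Sum.inr.inj hj
          rw [← hj'] at hjd
          rw [← e]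
          exact hP.mul_right _ h4 _ (hfk' j hjd)
  have hHt : ∀ w, (t' w)⁻¹ * t (b w) ∈ P := by
    intro w
    rcases hb w with ⟨h1, h2, h3⟩ | ⟨h1, h2, h3⟩
    · revert h1 h2 h3
      rcases w with w | j
      · have hc := w.2.2
        have hyw := hyt w.1
        rcases b (Sum.inl w) with w' | j'
        · intro h1 h2 h3
          have hc' := w'.2.2
          have h4 : yt w'.1 + w'.2 = yt w.1 + w.2 := congrArg Fin.val h1
          have h5 : al w.1 + sz w.1 ≤ al w'.1 := h2
          exact hrow w.1 w'.1 (yt w.1 + w.2) (by omega) (by omega) (by omega) (by omega) h5 (by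
            intro e he1 he2 he3
            obtain ⟨w'', hw1, hw2⟩ := hcr e _ he1 he2
            have h9 := h3 (Sum.inl w'') (Fin.ext hw2) (by
              show al w.1 + sz w.1 ≤ al w''.1
              rw [hw1]
              exact he3)
            have h10 : al w'.1 ≤ al w''.1 := h9
            rwa [hw1] at h10)
        · intro h1 h2 h3
          refine hright w.1 (yt w.1 + w.2) (by omega) (by omega) ?_
          intro e he1 he2
          obtain ⟨w'', hw1, hw2⟩ := hcr e _ he1 he2
          by_contra hcon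
          have h7 : w.1 ≠ e := by
            rintro rfl
            omega
          have h8 := hdis _ _ h7
          have h9 := h3 (Sum.inl w'') (Fin.ext hw2) (by
            show al w.1 + sz w.1 ≤ al w''.1
            rw [hw1]
            omega)
          have h10 : k ≤ al w''.1 := h9
          have := hal w''.1
          have := hsz w''.1
          omega
      · intro h1 h2
        exfalso
        revert h2
        rcases b (Sum.inr j) with w' | j'
        · intro h2
          have h3 : k + 1 ≤ al w'.1 := h2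
          have := hal w'.1
          omega
        · intro h2
          have h3 : k + 1 ≤ k := h2
          omega
    · rcases w with w | j
      · exfalso
        have h4 := h1 (Sum.inr (lr (Sum.inl w))) rfl (by intro h; cases h)
        have h5 : k + 1 ≤ al w.1 := h4
        have := hal w.1
        omega
      · show (1 : K)⁻¹ * t (b (Sum.inr j)) ∈ P
        rw [inv_one, one_mul]
        revert h2 h3
        rcases b (Sum.inr j) with w' | j'
        · intro h2 h3
          have hc' := w'.2.2
          have h4 : yt w'.1 + w'.2 = (j : ℕ) := congrArg Fin.val h2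
          refine hleft w'.1 j (by omega) (by omega) ?_
          intro e he1 he2
          obtain ⟨w'', hw1, hw2⟩ := hcr e _ he1 he2
          have h9 := h3 (Sum.inl w'') (Fin.ext hw2)
          have h10 : al w'.1 ≤ al w''.1 := h9
          rwa [hw1] at h10
        · intro _ _
          exact hM
  -- the theorem
  have hN := cnt_add L (h + k - 1)
  refine cone_component hP a b (fun w => (⟨((lc w : Fin (h + k)) : ℕ) % d, Nat.mod_lt _ hd0⟩ : Fin d)) lr
    (fun w => (⟨cnt L (tm w), Nat.lt_succ_of_le (cnt_mono L (htm w))⟩ : Fin (cnt L (h + k - 1) + 1)))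
    ?_ ?_ ?_ ?_ ?_ ?_ ?_ s s' t t' hcell (fun w => (hHs w).1) hHt ?_
  · intro w
    refine Fin.ext ?_
    show ((lc (a w) : Fin (h + k)) : ℕ) % d = ((lc w : Fin (h + k)) : ℕ) % d
    rcases ha w with ⟨h1, -, -⟩ | ⟨-, h1, -⟩
    · rw [h1]
    · rw [h1]
      by_cases hs : ((lc w : Fin (h + k)) : ℕ) < k
      · rw [hρ1 _ hs, hmodh]
      · rw [hρ2 _ hs, ← hmodk]
        congr 1
        omega
  · intro w
    rcases hb w with ⟨h1, -, -⟩ | ⟨-, h1, -⟩
    · exact h1
    · exact h1
  · intro w
    exact Fin.ext ((hta w).trans (htb w).symm)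
  · intro r
    refine ⟨Sum.inr ⟨r, by have := r.2; omega⟩, Fin.ext ?_⟩
    show (k + (r : ℕ)) % d = r
    rw [add_comm, hmodk, Nat.mod_eq_of_lt r.2]
  · exact fun j => ⟨Sum.inr j, rfl⟩
  · intro v
    obtain ⟨x, hx, hx'⟩ := cnt_surj L (h + k - 1) v (by have := v.2; omega)
    obtain ⟨w, hw1, hw2⟩ := hfst ⟨x, by omega⟩
    refine ⟨w, Fin.ext ?_⟩
    show cnt L (tm w) = v
    rw [hfirst w (fun w' h1 => hw2 w' (h1.trans hw1)), hw1]
    exact hx'
  · show Fintype.card ((Σ e, Fin (sz e)) ⊕ Fin h) < _
    rw [Fintype.card_sum, Fintype.card_sigma]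
    simp only [Fintype.card_fin]
    omega
  · -- closed sets
    intro C ⟨w₀, hw₀⟩ hCa hCb
    -- whole lines
    have hup : ∀ n, ∀ w w' : Ω, lc w = lc w' → loc w' - loc w = n → loc w ≤ loc w' → (w ∈ C ↔ w' ∈ C) := by
      intro n
      induction n using Nat.strong_induction_on with
      | _ n ih =>
        intro w w' h1 h2 h3
        by_cases h4 : loc w = loc w'
        · rw [hmono w w' h1 h4]
        · rw [← hCa w]
          rcases ha w with ⟨k1, k2, k3⟩ | ⟨k1, k2, k3⟩
          · have k5 := hltc w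
            have k4 := k3 w' h1.symm (by
              rcases hdisC w w' h1 (by rintro rfl; exact h4 rfl) with k6 | k6
              · exact k6
              · have := hltc w'
                omega)
            exact ih (loc w' - loc (a w)) (by omega) (a w) w' (k1.trans h1) rfl k4
          · exfalso
            have k4 := k1 w' h1.symm (by rintro rfl; exact h4 rfl)
            have k5 := hltc w'
            omega
    have hline : ∀ w w' : Ω, lc w = lc w' → (w ∈ C ↔ w' ∈ C) := by
      intro w w' h1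
      rcases le_total (loc w) (loc w') with h2 | h2
      · exact hup _ w w' h1 rfl h2
      · exact (hup _ w' w h1.symm rfl h2).symm
    have hnext : ∀ x : Fin (h + k), (∃ w ∈ C, lc w = x) → ∃ w ∈ C, lc w = ρ x := by
      rintro x ⟨w, hw, rfl⟩
      obtain ⟨v, hv1, hv2⟩ := hlast w
      have hv : v ∈ C := (hline v w hv1).2 hw
      have hav : a v ∈ C := (hCa v).2 hv
      rcases ha v with ⟨k1, k2, k3⟩ | ⟨k1, k2, k3⟩
      · exfalso
        have k4 := hv2 (a v) (k1.trans hv1)
        have k5 := hltc v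
        omega
      · exact ⟨a v, hav, by rw [k2, hv1]⟩
    have hρ : ∀ x : Fin (h + k), ((ρ x : Fin (h + k)) : ℕ) = (x + h) % (h + k) := by
      intro x
      have hx := x.2
      by_cases hs : (x : ℕ) < k
      · rw [hρ1 x hs, Nat.mod_eq_of_lt (by omega)]
      · rw [hρ2 x hs]
        have e : (x : ℕ) + h = (x - k) + (h + k) := by omega
        rw [e, Nat.add_mod_right, Nat.mod_eq_of_lt (by omega)]
    have hρn : ∀ (n : ℕ), ∃ w ∈ C, ((lc w : Fin (h + k)) : ℕ) = ((lc w₀ : Fin (h + k)) + n * h) % (h + k) := by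
      intro n
      induction n with
      | zero =>
        refine ⟨w₀, hw₀, ?_⟩
        rw [zero_mul, add_zero, Nat.mod_eq_of_lt (Fin.isLt _)]
      | succ n ih =>
        obtain ⟨w, hw, hw'⟩ := ih
        obtain ⟨v, hv, hv'⟩ := hnext (lc w) ⟨w, hw, rfl⟩
        refine ⟨v, hv, ?_⟩
        rw [hv', hρ, hw', Nat.mod_add_mod]
        congr 1
        ring
    obtain ⟨n, hn⟩ := reach (h := h) (k := k) hh (lc w₀ : Fin (h + k))
    obtain ⟨w, hw, hw'⟩ := hρn n
    rw [hn] at hw'
    have hr := Nat.mod_lt ((lc w₀ : Fin (h + k)) : ℕ) hd0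
    refine ⟨Sum.inr ⟨((lc w₀ : Fin (h + k)) : ℕ) % d, by omega⟩, ?_, ?_⟩
    · refine (hline w _ (Fin.ext ?_)).1 hw
      rw [hw']
    · exact Or.inr (Or.inl ((hHs _).2 _ rfl hr))

end Pool.Agent.Helper94.T1
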