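import Mathlib

/-!
# The planar lemma (helper61's Lemma P)

A planar hypermap with two families of order automorphisms: if `s (a w) (s w)⁻¹ ≤ t (b w) (t w)⁻¹` for all `w`, then
equality holds for all `w`.
-/

set_option autoImplicit false
set_option linter.unusedSectionVars false

open Finset

namespace Pool.Agent.Helper94.T1

/-- a spanning tree with the ties solved along it -/
theorem tree {L Ω X : Type*} [Fintype L] [Fintype Ω] [DecidableEq L] [DecidableEq Ω] (u v : Ω → L)
    (hconn : ∀ C : Finset L, C.Nonempty → C ≠ univ → ∃ w, (u w ∈ C ∧ v w ∉ C) ∨ (v w ∈ C ∧ u w ∉ C))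
    (f g : Ω → X ≃ X) (l₀ : L) :
    ∃ T : Finset Ω, T.card + 1 = Fintype.card L ∧
      (∀ ξ : X, ∃ r : L → X, r l₀ = ξ ∧ ∀ w ∈ T, f w (r (u w)) = g w (r (v w))) ∧
      ∀ c : L → ℚ, (∀ w ∈ T, c (u w) = c (v w)) → ∀ l, c l = c l₀ := by
  have key : ∀ n : ℕ, n + 1 ≤ Fintype.card L → ∃ (C : Finset L) (T : Finset Ω), l₀ ∈ C ∧
      C.card = n + 1 ∧ T.card = n ∧ (∀ w ∈ T, u w ∈ C ∧ v w ∈ C) ∧
      (∀ ξ : X, ∃ r : L → X, r l₀ = ξ ∧ ∀ w ∈ T, f w (r (u w)) = g w (r (v w))) ∧
      ∀ c : L → ℚ, (∀ w ∈ T, c (u w) = c (v w)) → ∀ l ∈ C, c l = c l₀ := by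
    intro n
    induction n with
    | zero =>
      intro _
      refine ⟨{l₀}, ∅, by simp, by simp, by simp, by simp, fun ξ => ⟨fun _ => ξ, rfl, by simp⟩, ?_⟩
      intro c _ l hl
      rw [mem_singleton] at hl
      rw [hl]
    | succ n ih =>
      intro hn
      obtain ⟨C, T, h0, hC, hT, hTC, hr, hc⟩ := ih (by omega)
      have hne : C ≠ univ := by
        intro h
        rw [h, card_univ] at hC
        omega
      obtain ⟨w, hw⟩ := hconn C ⟨l₀, h0⟩ hne
      rcases hw with ⟨h1, h2⟩ | ⟨h1, h2⟩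
      · have hwT : w ∉ T := fun h => h2 (hTC w h).2
        refine ⟨insert (v w) C, insert w T, mem_insert_of_mem h0, by rw [card_insert_of_notMem h2, hC],
          by rw [card_insert_of_notMem hwT, hT], ?_, ?_, ?_⟩
        · intro w' hw'
          rcases mem_insert.1 hw' with rfl | hw'
          · exact ⟨mem_insert_of_mem h1, mem_insert_self _ _⟩
          · exact ⟨mem_insert_of_mem (hTC w' hw').1, mem_insert_of_mem (hTC w' hw').2⟩
        · intro ξ
          obtain ⟨r, hr0, hr1⟩ := hr ξ
          refine ⟨Function.update r (v w) ((g w).symm (f w (r (u w)))), ?_, ?_⟩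
          · rw [Function.update_of_ne (ne_of_mem_of_not_mem h0 h2), hr0]
          · intro w' hw'
            rcases mem_insert.1 hw' with rfl | hw'
            · rw [Function.update_self, Function.update_of_ne (ne_of_mem_of_not_mem h1 h2),
                Equiv.apply_symm_apply]
            · rw [Function.update_of_ne (ne_of_mem_of_not_mem (hTC w' hw').1 h2),
                Function.update_of_ne (ne_of_mem_of_not_mem (hTC w' hw').2 h2), hr1 w' hw']
        · intro c hcT l hl
          have hcC := hc c fun w' hw' => hcT w' (mem_insert_of_mem hw')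
          rcases mem_insert.1 hl with rfl | hl
          · rw [← hcT w (mem_insert_self _ _)]
            exact hcC _ h1
          · exact hcC l hl
      · have hwT : w ∉ T := fun h => h2 (hTC w h).1
        refine ⟨insert (u w) C, insert w T, mem_insert_of_mem h0, by rw [card_insert_of_notMem h2, hC],
          by rw [card_insert_of_notMem hwT, hT], ?_, ?_, ?_⟩
        · intro w' hw'
          rcases mem_insert.1 hw' with rfl | hw'
          · exact ⟨mem_insert_self _ _, mem_insert_of_mem h1⟩
          · exact ⟨mem_insert_of_mem (hTC w' hw').1, mem_insert_of_mem (hTC w' hw').2⟩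
        · intro ξ
          obtain ⟨r, hr0, hr1⟩ := hr ξ
          refine ⟨Function.update r (u w) ((f w).symm (g w (r (v w)))), ?_, ?_⟩
          · rw [Function.update_of_ne (ne_of_mem_of_not_mem h0 h2), hr0]
          · intro w' hw'
            rcases mem_insert.1 hw' with rfl | hw'
            · rw [Function.update_self, Function.update_of_ne (ne_of_mem_of_not_mem h1 h2),
                Equiv.apply_symm_apply]
            · rw [Function.update_of_ne (ne_of_mem_of_not_mem (hTC w' hw').1 h2),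
                Function.update_of_ne (ne_of_mem_of_not_mem (hTC w' hw').2 h2), hr1 w' hw']
        · intro c hcT l hl
          have hcC := hc c fun w' hw' => hcT w' (mem_insert_of_mem hw')
          rcases mem_insert.1 hl with rfl | hl
          · rw [hcT w (mem_insert_self _ _)]
            exact hcC _ h1
          · exact hcC l hl
  have hpos : 0 < Fintype.card L := Fintype.card_pos_iff.2 ⟨l₀⟩
  obtain ⟨C, T, h0, hC, hT, hTC, hr, hc⟩ := key (Fintype.card L - 1) (by omega)
  have hCu : C = univ := by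
    rw [← card_eq_iff_eq_univ, hC]
    omega
  refine ⟨T, by omega, hr, fun c hcT l => hc c hcT l (by rw [hCu]; exact mem_univ l)⟩

section rank

variable {Ω L Z : Type*} [Fintype Ω] [Fintype L] [Fintype Z] [DecidableEq Ω] [DecidableEq L] [DecidableEq Z]

/-- the boundary -/
def bd (z z' : Ω → Z) : Matrix Z Ω ℚ := fun σ w => (if z w = σ then 1 else 0) - if z' w = σ then 1 else 0

theorem bd_mulVec (z z' : Ω → Z) (f : Ω → ℚ) (σ : Z) :
    (bd z z').mulVec f σ = (∑ w, if z w = σ then f w else 0) - ∑ w, if z' w = σ then f w else 0 := by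
  simp only [Matrix.mulVec, dotProduct, bd, sub_mul, ite_mul, one_mul, zero_mul, sum_sub_distrib]

theorem bd_transpose_mulVec (z z' : Ω → Z) (g : Z → ℚ) (w : Ω) :
    (bd z z').transpose.mulVec g w = g (z w) - g (z' w) := by
  simp [Matrix.mulVec, dotProduct, bd, sub_mul, sum_sub_distrib]

/-- the coboundary -/
def cob (u v : Ω → L) : (L → ℚ) →ₗ[ℚ] (Ω → ℚ) where
  toFun c := fun w => c (v w) - c (u w)
  map_add' c c' := by
    funext w
    simp only [Pi.add_apply]
    ring
  map_smul' r c := by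
    funext w
    simp only [Pi.smul_apply, smul_eq_mul, RingHom.id_apply]
    ring

theorem finrank_const {V : Submodule ℚ (L → ℚ)} (l₀ : L) (h : ∀ c ∈ V, ∀ l, c l = c l₀) :
    Module.finrank ℚ V ≤ 1 := by
  have h1 : V ≤ Submodule.span ℚ {(fun _ => 1 : L → ℚ)} := by
    intro c hc
    rw [Submodule.mem_span_singleton]
    refine ⟨c l₀, ?_⟩
    funext l
    simp [h c hc l]
  exact (Submodule.finrank_mono h1).trans (finrank_span_le_card _) |>.trans (by simp)

/-- circulations are coboundaries -/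
theorem circ (u v : Ω → L) (z z' : Ω → Z)
    (hL : ∀ c : L → ℚ, (∀ w, c (u w) = c (v w)) → ∀ l l', c l = c l')
    (hZ : ∀ c : Z → ℚ, (∀ w, c (z w) = c (z' w)) → ∀ l l', c l = c l')
    [Nonempty L] [Nonempty Z]
    (hcard : Fintype.card Ω + 2 ≤ Fintype.card L + Fintype.card Z)
    (hcirc : ∀ c : L → ℚ, (bd z z').mulVec (cob u v c) = 0)
    {f : Ω → ℚ} (hf : (bd z z').mulVec f = 0) : ∃ c : L → ℚ, cob u v c = f := by
  obtain ⟨l₀⟩ := ‹Nonempty L›
  obtain ⟨z₀⟩ := ‹Nonempty Z›
  set A := (bd z z').mulVecLin with hA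
  have h1 := LinearMap.finrank_range_add_finrank_ker (cob u v)
  have h2 := LinearMap.finrank_range_add_finrank_ker A
  have h3 := LinearMap.finrank_range_add_finrank_ker (bd z z').transpose.mulVecLin
  have h4 : Module.finrank ℚ (LinearMap.range A) =
      Module.finrank ℚ (LinearMap.range (bd z z').transpose.mulVecLin) :=
    (Matrix.rank_transpose (bd z z')).symm
  have h5 : Module.finrank ℚ (LinearMap.ker (cob u v)) ≤ 1 := by
    refine finrank_const l₀ fun c hc l => hL c (fun w => ?_) l l₀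
    have := congrFun (LinearMap.mem_ker.1 hc) w
    have h6 : c (v w) - c (u w) = 0 := this
    linarith
  have h6 : Module.finrank ℚ (LinearMap.ker (bd z z').transpose.mulVecLin) ≤ 1 := by
    refine finrank_const z₀ fun c hc l => hZ c (fun w => ?_) l z₀
    have := congrFun (LinearMap.mem_ker.1 hc) w
    rw [Matrix.mulVecLin_apply, bd_transpose_mulVec] at this
    have h7 : c (z w) - c (z' w) = 0 := this
    linarith
  rw [Module.finrank_fintype_fun_eq_card] at h1 h2 h3
  have h7 : LinearMap.range (cob u v) ≤ LinearMap.ker A := by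
    rintro _ ⟨c, rfl⟩
    exact hcirc c
  have h8 : LinearMap.range (cob u v) = LinearMap.ker A :=
    Submodule.eq_of_le_of_finrank_le h7 (by omega)
  have h9 : f ∈ LinearMap.ker A := hf
  rw [← h8] at h9
  exact h9

end rank

/-- **The planar lemma, with slack.** `s⁺ (s⁻)⁻¹ ≤ t⁺ (t⁻)⁻¹` for every cell, `s⁻ (a w) ≤ s⁺ w`, `t⁺ w ≤ t⁻ (b w)`. -/
theorem planar_slack {Ω I J Z X : Type*} [Fintype Ω] [Fintype I] [Fintype J] [Fintype Z] [LinearOrder X]
    (a b : Equiv.Perm Ω) (p : Ω → I) (q : Ω → J) (z : Ω → Z)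
    (hp : ∀ w, p (a w) = p w) (hq : ∀ w, q (b w) = q w) (hz : ∀ w, z (a w) = z (b w))
    (hL : ∀ (C : I → Prop) (D : J → Prop), (∀ w, C (p w) ↔ D (q w)) →
      ((∀ i, C i) ∧ ∀ j, D j) ∨ ((∀ i, ¬ C i) ∧ ∀ j, ¬ D j))
    (hZ : ∀ E : Z → Prop, (∀ w, E (z w) ↔ E (z (a w))) → (∀ σ, E σ) ∨ ∀ σ, ¬ E σ)
    (hcard : Fintype.card Ω + 2 ≤ Fintype.card I + Fintype.card J + Fintype.card Z)
    (s s' t t' : Ω → X ≃o X) (H : ∀ w x, s' w ((s w).symm x) ≤ t' w ((t w).symm x))
    (Hs : ∀ w x, s (a w) x ≤ s' w x) (Ht : ∀ w x, t' w x ≤ t (b w) x) :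
    ∀ w x, s' w ((s w).symm x) = t' w ((t w).symm x) ∧ s (a w) x = s' w x ∧ t' w x = t (b w) x := by
  classical
  suffices hmain : ∀ w₀ ξ, s w₀ ξ = t w₀ ((t w₀).symm (s w₀ ξ)) ∧
      s' w₀ ξ = t' w₀ ((t w₀).symm (s w₀ ξ)) ∧ s (a w₀) ξ = s' w₀ ξ ∧
      t' w₀ ((t w₀).symm (s w₀ ξ)) = t (b w₀) ((t w₀).symm (s w₀ ξ)) by
    intro w x
    refine ⟨?_, (hmain w x).2.2.1, ?_⟩
    · have h := (hmain w ((s w).symm x)).2.1
      rw [OrderIso.apply_symm_apply] at h
      exact h
    · have h := (hmain w ((s w).symm (t w x))).2.2.2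
      rw [OrderIso.apply_symm_apply, OrderIso.symm_apply_apply] at h
      exact h
  intro w₀ ξ₀
  -- the tree
  obtain ⟨T, hTc, hTr, hTk⟩ := tree (L := I ⊕ J) (fun w => Sum.inl (p w)) (fun w => Sum.inr (q w))
    (by
      intro C hC hCu
      by_contra hno
      push Not at hno
      rcases hL (fun i => Sum.inl i ∈ C) (fun j => Sum.inr j ∈ C)
        (fun w => ⟨(hno w).1, (hno w).2⟩) with ⟨h1, h2⟩ | ⟨h1, h2⟩
      · apply hCu
        ext l
        rcases l with i | j
        · simp [h1 i]
        · simp [h2 j]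
      · obtain ⟨l, hl⟩ := hC
        rcases l with i | j
        · exact h1 i hl
        · exact h2 j hl)
    (fun w => (s w).toEquiv) (fun w => (t w).toEquiv) (Sum.inl (p w₀))
  obtain ⟨r, hr0, hr⟩ := hTr ξ₀
  set P : Ω → X := fun w => s w (r (Sum.inl (p w))) with hP
  set Q : Ω → X := fun w => t w (r (Sum.inr (q w))) with hQ
  set P' : Ω → X := fun w => s' w (r (Sum.inl (p w))) with hP'
  set Q' : Ω → X := fun w => t' w (r (Sum.inr (q w))) with hQ'
  have hPa : ∀ w, P' w = s' w ((s w).symm (P w)) := by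
    intro w
    simp only [hP, hP', OrderIso.symm_apply_apply]
  have hQb : ∀ w, Q' w = t' w ((t w).symm (Q w)) := by
    intro w
    simp only [hQ, hQ', OrderIso.symm_apply_apply]
  have hPs : ∀ w, P (a w) ≤ P' w := by
    intro w
    simp only [hP, hP', hp]
    exact Hs w _
  have hQs : ∀ w, Q' w ≤ Q (b w) := by
    intro w
    simp only [hQ, hQ', hq]
    exact Ht w _
  have hle : ∀ w, P w ≤ Q w → P' w ≤ Q' w := by
    intro w h
    rw [hPa, hQb]
    refine ((s' w).monotone ((s w).symm.monotone h)).trans (H w (Q w))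
  have hlt : ∀ w, P w < Q w → P' w < Q' w := by
    intro w h
    rw [hPa, hQb]
    refine ((s' w).strictMono ((s w).symm.strictMono h)).trans_le (H w (Q w))
  have hT : ∀ w ∈ T, P w = Q w := hr
  -- the set of the times with a strictly positive comparison
  set posAt : Z → Prop := fun σ => ∃ w, (z w = σ ∧ Q w < P w) ∨
    (z (a w) = σ ∧ (P' w < Q' w ∨ P (a w) < P' w ∨ Q' w < Q (b w))) with hpos
  set neg : Z → Ω → Prop := fun σ w => (z w = σ ∧ P w < Q w) ∨ (z (a w) = σ ∧ Q' w < P' w) with hneg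
  have c1 : ∀ σ, posAt σ → ∃ w, neg σ w := by
    intro σ hσ
    by_contra hno
    push Not at hno
    have n1 : ∀ u, z u = σ → Q u ≤ P u := by
      intro u hu
      by_contra h
      exact hno u (Or.inl ⟨hu, not_le.1 h⟩)
    have n2 : ∀ w, z (a w) = σ → P' w ≤ Q' w := by
      intro w hw
      by_contra h
      exact hno w (Or.inr ⟨hw, not_le.1 h⟩)
    set c : Equiv.Perm Ω := a.symm.trans b with hc
    have hzc : ∀ u, z (c u) = z u := by
      intro u
      have := hz (a.symm u)
      rw [Equiv.apply_symm_apply] at this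
      rw [this]
      rfl
    have n3' : ∀ w, z (a w) = σ → P (a w) ≤ Q (b w) := fun w hw => (hPs w).trans ((n2 w hw).trans (hQs w))
    have n3 : ∀ u, z u = σ → P u ≤ Q (c u) := by
      intro u hu
      have := n3' (a.symm u) (by rw [Equiv.apply_symm_apply]; exact hu)
      rw [Equiv.apply_symm_apply] at this
      exact this
    have n4 : ∀ n : ℕ, ∀ u, z u = σ → z ((c ^ n) u) = σ ∧ Q u ≤ Q ((c ^ n) u) := by
      intro n
      induction n with
      | zero => exact fun u hu => ⟨hu, le_rfl⟩
      | succ n ih =>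
        intro u hu
        obtain ⟨i1, i2⟩ := ih u hu
        rw [pow_succ', Equiv.Perm.mul_apply]
        refine ⟨(hzc _).trans i1, i2.trans ((n1 _ i1).trans (n3 _ i1))⟩
    have n5 : ∀ u, z u = σ → Q (c u) ≤ Q u := by
      intro u hu
      have h1 : 0 < orderOf c := orderOf_pos c
      have h2 := (n4 (orderOf c - 1) (c u) ((hzc u).trans hu)).2
      have h3 : (c ^ (orderOf c - 1)) (c u) = u := by
        rw [← Equiv.Perm.mul_apply, ← pow_succ, Nat.sub_add_cancel h1, pow_orderOf_eq_one,
          Equiv.Perm.one_apply]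
      rw [h3] at h2
      exact h2
    obtain ⟨w, ⟨h1, h2⟩ | ⟨h1, h2⟩⟩ := hσ
    · exact absurd ((n3 w h1).trans (n5 w h1)) (not_le.2 h2)
    · have h3 := n5 (a w) h1
      have h4 : c (a w) = b w := by simp [hc]
      rw [h4] at h3
      have h5 : Q (b w) ≤ P (a w) := h3.trans (n1 _ h1)
      rcases h2 with h2 | h2 | h2
      · exact absurd (((hQs w).trans h5).trans (hPs w)) (not_le.2 h2)
      · exact absurd (((n2 w h1).trans (hQs w)).trans h5) (not_le.2 h2)
      · exact absurd ((h5.trans (hPs w)).trans (n2 w h1)) (not_le.2 h2)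
  have c2 : ∀ σ w, neg σ w → w ∉ T := by
    rintro σ w (⟨-, h⟩ | ⟨-, h⟩) hw
    · exact absurd (hT w hw) h.ne
    · exact absurd (hle w (hT w hw).le) (not_le.2 h)
  have c3 : ∀ σ w, posAt σ → neg σ w → posAt (z w) ∧ posAt (z (a w)) := by
    rintro σ w hσ (⟨h1, h⟩ | ⟨h1, h⟩)
    · exact ⟨h1 ▸ hσ, w, Or.inr ⟨rfl, Or.inl (hlt w h)⟩⟩
    · refine ⟨⟨w, Or.inl ⟨rfl, ?_⟩⟩, h1 ▸ hσ⟩
      by_contra h2
      exact absurd (hle w (not_lt.1 h2)) (not_le.2 h)
  have c4 : ∀ σ σ' w, neg σ w → neg σ' w → σ = σ' := by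
    rintro σ σ' w (⟨h1, h⟩ | ⟨h1, h⟩) (⟨h1', h'⟩ | ⟨h1', h'⟩)
    · exact h1.symm.trans h1'
    · exact absurd (hlt w h).le (not_le.2 h')
    · exact absurd (hlt w h').le (not_le.2 h)
    · exact h1.symm.trans h1'
  -- the other cells form a forest of the time graph
  have hNe : Nonempty (I ⊕ J) := ⟨Sum.inl (p w₀)⟩
  have hNz : Nonempty Z := ⟨z w₀⟩
  have hempty : ∀ σ, ¬ posAt σ := by
    by_contra hex
    push Not at hex
    obtain ⟨σ₀, hσ₀⟩ := hex
    have hNo : Nonempty Ω := ⟨w₀⟩
    choose! n hn using c1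
    set S : Finset Z := univ.filter posAt with hS
    set N : Finset Ω := univ.filter fun w => w ∉ T ∧ posAt (z w) ∧ posAt (z (a w)) with hN
    have hmaps : ∀ σ ∈ S, n σ ∈ N := by
      intro σ hσ
      have h1 := (mem_filter.1 hσ).2
      have h2 := hn σ h1
      exact mem_filter.2 ⟨mem_univ _, c2 σ _ h2, c3 σ _ h1 h2⟩
    have hinj : Set.InjOn n S := by
      intro σ hσ σ' hσ' h
      have h1 := hn σ (mem_filter.1 hσ).2
      have h2 := hn σ' (mem_filter.1 hσ').2
      rw [← h] at h2
      exact c4 σ σ' _ h1 h2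
    have hle2 : S.card ≤ N.card := card_le_card_of_injOn n hmaps hinj
    -- a circulation supported on `N`
    let D : (N → ℚ) →ₗ[ℚ] (S → ℚ) :=
      { toFun := fun f σ => (∑ w : N, if z w = σ then f w else 0) - ∑ w : N, if z (a w) = σ then f w else 0
        map_add' := by
          intro f g
          funext σ
          simp only [Pi.add_apply]
          have h1 : ∀ (e : N → Prop) [DecidablePred e], (∑ w : N, if e w then f w + g w else 0) =
              (∑ w : N, if e w then f w else 0) + ∑ w : N, if e w then g w else 0 := by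
            intro e _
            rw [← sum_add_distrib]
            exact sum_congr rfl fun w _ => by split_ifs <;> simp
          rw [h1, h1]
          ring
        map_smul' := by
          intro c f
          funext σ
          simp only [Pi.smul_apply, smul_eq_mul, RingHom.id_apply]
          have h1 : ∀ (e : N → Prop) [DecidablePred e], (∑ w : N, if e w then c * f w else 0) =
              c * ∑ w : N, if e w then f w else 0 := by
            intro e _
            rw [mul_sum]
            exact sum_congr rfl fun w _ => by split_ifs <;> simp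
          rw [h1, h1]
          ring }
    have hD : ∀ (f : N → ℚ) (σ : S), D f σ =
        (∑ w : N, if z w = σ then f w else 0) - ∑ w : N, if z (a w) = σ then f w else 0 := fun _ _ => rfl
    have hsum : ∀ f : N → ℚ, ∑ σ : S, D f σ = 0 := by
      intro f
      simp only [hD, sum_sub_distrib]
      rw [sum_comm, sum_comm (f := fun (σ : S) (w : N) => if z (a w) = σ then f w else 0)]
      have h1 : ∀ w : N, (∑ σ : S, if z w = σ then f w else 0) = f w := by
        intro w
        have hw : z w ∈ S := mem_filter.2 ⟨mem_univ _, (mem_filter.1 w.2).2.2.1⟩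
        rw [sum_eq_single (⟨z w, hw⟩ : S)]
        · simp
        · intro σ _ hσ
          rw [if_neg]
          intro h
          exact hσ (Subtype.ext h.symm)
        · simp
      have h2 : ∀ w : N, (∑ σ : S, if z (a w) = σ then f w else 0) = f w := by
        intro w
        have hw : z (a w) ∈ S := mem_filter.2 ⟨mem_univ _, (mem_filter.1 w.2).2.2.2⟩
        rw [sum_eq_single (⟨z (a w), hw⟩ : S)]
        · simp
        · intro σ _ hσ
          rw [if_neg]
          intro h
          exact hσ (Subtype.ext h.symm)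
        · simp
      simp only [h1, h2, sub_self]
    have hnotsurj : ¬ Function.Surjective D := by
      intro hs
      obtain ⟨f, hf⟩ := hs fun _ => 1
      have h1 := hsum f
      rw [hf] at h1
      simp only [sum_const, card_univ, Fintype.card_coe, nsmul_eq_mul, mul_one] at h1
      have h2 : 0 < S.card := card_pos.2 ⟨σ₀, mem_filter.2 ⟨mem_univ _, hσ₀⟩⟩
      have h3 : (S.card : ℚ) ≠ 0 := by exact_mod_cast h2.ne'
      exact h3 h1
    have hnotinj : ¬ Function.Injective D := by
      intro hi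
      have h1 := LinearMap.finrank_range_add_finrank_ker D
      rw [LinearMap.ker_eq_bot.2 hi, finrank_bot, add_zero, Module.finrank_fintype_fun_eq_card,
        Fintype.card_coe] at h1
      have h2 : Module.finrank ℚ (S → ℚ) = S.card := by
        rw [Module.finrank_fintype_fun_eq_card, Fintype.card_coe]
      have h3 : LinearMap.range D = ⊤ := by
        apply Submodule.eq_top_of_finrank_eq
        have h4 := Submodule.finrank_le (LinearMap.range D)
        omega
      exact hnotsurj (LinearMap.range_eq_top.1 h3)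
    rw [← LinearMap.ker_eq_bot, Submodule.eq_bot_iff] at hnotinj
    push Not at hnotinj
    obtain ⟨f, hfk, hf0⟩ := hnotinj
    set F : Ω → ℚ := fun w => if h : w ∈ N then f ⟨w, h⟩ else 0 with hF
    have hFsum : ∀ (e : Ω → Prop) [DecidablePred e], (∑ w, if e w then F w else 0) =
        ∑ w : N, if e w then f w else 0 := by
      intro e _
      rw [← sum_subset (subset_univ N), ← sum_attach, univ_eq_attach]
      · refine sum_congr rfl fun w _ => ?_
        simp [hF]
      · intro w _ hw
        simp [hF, hw]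
    have hcircF : (bd z fun w => z (a w)).mulVec F = 0 := by
      funext σ
      rw [bd_mulVec, hFsum, hFsum, Pi.zero_apply]
      by_cases hσ : σ ∈ S
      · have h1 := congrFun (LinearMap.mem_ker.1 hfk) (⟨σ, hσ⟩ : S)
        rw [hD] at h1
        exact h1
      · rw [sum_eq_zero, sum_eq_zero, sub_zero]
        · intro w _
          rw [if_neg]
          intro h
          exact hσ (h ▸ mem_filter.2 ⟨mem_univ _, (mem_filter.1 w.2).2.2.2⟩)
        · intro w _
          rw [if_neg]
          intro h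
          exact hσ (h ▸ mem_filter.2 ⟨mem_univ _, (mem_filter.1 w.2).2.2.1⟩)
    have hcob : ∀ c : I ⊕ J → ℚ, (bd z fun w => z (a w)).mulVec
        (cob (fun w => Sum.inl (p w)) (fun w => Sum.inr (q w)) c) = 0 := by
      intro c
      funext σ
      rw [bd_mulVec, Pi.zero_apply, sub_eq_zero]
      have e1 : ∀ w, cob (fun w => Sum.inl (p w)) (fun w => Sum.inr (q w)) c w =
        c (Sum.inr (q w)) - c (Sum.inl (p w)) := fun _ => rfl
      simp only [e1]
      have e2 : ∀ (e : Ω → Prop) [DecidablePred e] (f g : Ω → ℚ), (∑ w, if e w then f w - g w else 0) =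
          (∑ w, if e w then f w else 0) - ∑ w, if e w then g w else 0 := by
        intro e _ f g
        rw [← sum_sub_distrib]
        exact sum_congr rfl fun w _ => by split_ifs <;> simp
      rw [e2, e2]
      congr 1
      · rw [← Equiv.sum_comp b fun w => if z w = σ then c (Sum.inr (q w)) else 0]
        refine sum_congr rfl fun w _ => ?_
        rw [hq, hz]
      · rw [← Equiv.sum_comp a fun w => if z w = σ then c (Sum.inl (p w)) else 0]
        refine sum_congr rfl fun w _ => ?_
        rw [hp]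
    obtain ⟨c, hc⟩ := circ (L := I ⊕ J) (fun w => Sum.inl (p w)) (fun w => Sum.inr (q w)) z
      (fun w => z (a w))
      (by
        intro c hc l l'
        have h1 := hTk c fun w _ => hc w
        rw [h1 l, h1 l'])
      (by
        intro c hc l l'
        rcases hZ (fun σ => c σ = c l') (fun w => by rw [hc w]) with h | h
        · exact h l
        · exact absurd rfl (h l'))
      (by rw [Fintype.card_sum]; exact hcard) hcob hcircF
    have hcT : ∀ w ∈ T, c (Sum.inl (p w)) = c (Sum.inr (q w)) := by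
      intro w hw
      have h1 := congrFun hc w
      have h2 : F w = 0 := by
        have : w ∉ N := fun h => (mem_filter.1 h).2.1 hw
        simp [hF, this]
      rw [h2] at h1
      have h3 : c (Sum.inr (q w)) - c (Sum.inl (p w)) = 0 := h1
      linarith
    have hconst := hTk c hcT
    apply hf0
    funext w
    have h1 := congrFun hc w
    have h2 : F w = f w := by simp [hF]
    rw [h2] at h1
    rw [← h1]
    have h3 : cob (fun w => Sum.inl (p w)) (fun w => Sum.inr (q w)) c w =
      c (Sum.inr (q w)) - c (Sum.inl (p w)) := rfl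
    rw [h3, hconst (Sum.inr (q w)), hconst (Sum.inl (p w)), sub_self]
    rfl
  -- conclusion
  have h1 : P w₀ = Q w₀ := by
    refine le_antisymm ?_ ?_
    · by_contra h
      exact hempty _ ⟨w₀, Or.inl ⟨rfl, not_le.1 h⟩⟩
    · by_contra h
      exact hempty _ ⟨w₀, Or.inr ⟨rfl, Or.inl (hlt _ (not_le.1 h))⟩⟩
  have h2 : P' w₀ = Q' w₀ := by
    refine le_antisymm (hle _ h1.le) ?_
    by_contra h
    exact hempty _ ⟨w₀, Or.inr ⟨rfl, Or.inl (not_le.1 h)⟩⟩
  have h3 : P (a w₀) = P' w₀ := by
    refine le_antisymm (hPs w₀) ?_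
    by_contra h
    exact hempty _ ⟨w₀, Or.inr ⟨rfl, Or.inr (Or.inl (not_le.1 h))⟩⟩
  have h4 : Q' w₀ = Q (b w₀) := by
    refine le_antisymm (hQs w₀) ?_
    by_contra h
    exact hempty _ ⟨w₀, Or.inr ⟨rfl, Or.inr (Or.inr (not_le.1 h))⟩⟩
  have h5 : P w₀ = s w₀ ξ₀ := by simp only [hP, hr0]
  have h6 : P' w₀ = s' w₀ ξ₀ := by simp only [hP', hr0]
  have h7 : P (a w₀) = s (a w₀) ξ₀ := by simp only [hP, hp, hr0]
  have h8 : r (Sum.inr (q w₀)) = (t w₀).symm (s w₀ ξ₀) := by
    rw [← h5, h1]
    simp only [hQ, OrderIso.symm_apply_apply]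
  have h9 : Q' w₀ = t' w₀ ((t w₀).symm (s w₀ ξ₀)) := by simp only [hQ', h8]
  have h10 : Q (b w₀) = t (b w₀) ((t w₀).symm (s w₀ ξ₀)) := by simp only [hQ, hq, h8]
  rw [← h6, ← h7, ← h9, ← h10, OrderIso.apply_symm_apply]
  exact ⟨rfl, h2, h3, h4⟩

/-- **The planar lemma.** -/
theorem planar {Ω I J Z X : Type*} [Fintype Ω] [Fintype I] [Fintype J] [Fintype Z] [LinearOrder X]
    (a b : Equiv.Perm Ω) (p : Ω → I) (q : Ω → J) (z : Ω → Z)
    (hp : ∀ w, p (a w) = p w) (hq : ∀ w, q (b w) = q w) (hz : ∀ w, z (a w) = z (b w))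
    (hL : ∀ (C : I → Prop) (D : J → Prop), (∀ w, C (p w) ↔ D (q w)) →
      ((∀ i, C i) ∧ ∀ j, D j) ∨ ((∀ i, ¬ C i) ∧ ∀ j, ¬ D j))
    (hZ : ∀ E : Z → Prop, (∀ w, E (z w) ↔ E (z (a w))) → (∀ σ, E σ) ∨ ∀ σ, ¬ E σ)
    (hcard : Fintype.card Ω + 2 ≤ Fintype.card I + Fintype.card J + Fintype.card Z)
    (s t : Ω → X ≃o X) (H : ∀ w x, s (a w) ((s w).symm x) ≤ t (b w) ((t w).symm x)) :
    ∀ w x, s (a w) ((s w).symm x) = t (b w) ((t w).symm x) := fun w x =>
  (planar_slack a b p q z hp hq hz hL hZ hcard s (fun w => s (a w)) t (fun w => t (b w)) H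
    (fun _ _ => le_rfl) (fun _ _ => le_rfl) w x).1

/-- the connectedness conditions from transitivity -/
theorem conn_of_trans {Ω I J Z : Type*} (a b : Equiv.Perm Ω) (p : Ω → I) (q : Ω → J) (z : Ω → Z)
    (hp : ∀ w, p (a w) = p w) (hq : ∀ w, q (b w) = q w) (hz : ∀ w, z (a w) = z (b w))
    (hps : Function.Surjective p) (hqs : Function.Surjective q) (hzs : Function.Surjective z)
    (htr : ∀ E : Ω → Prop, (∀ w, E (a w) ↔ E w) → (∀ w, E (b w) ↔ E w) → (∀ w, E w) ∨ ∀ w, ¬ E w) :
    (∀ (C : I → Prop) (D : J → Prop), (∀ w, C (p w) ↔ D (q w)) →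
      ((∀ i, C i) ∧ ∀ j, D j) ∨ ((∀ i, ¬ C i) ∧ ∀ j, ¬ D j)) ∧
    ∀ E : Z → Prop, (∀ w, E (z w) ↔ E (z (a w))) → (∀ σ, E σ) ∨ ∀ σ, ¬ E σ := by
  constructor
  · intro C D h
    have h1 := htr (fun w => C (p w)) (fun w => by rw [hp]) fun w => by rw [h, h, hq]
    rcases h1 with h1 | h1
    · left
      refine ⟨fun i => ?_, fun j => ?_⟩
      · obtain ⟨w, rfl⟩ := hps i
        exact h1 w
      · obtain ⟨w, rfl⟩ := hqs j
        exact (h w).1 (h1 w)
    · right
      refine ⟨fun i => ?_, fun j => ?_⟩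
      · obtain ⟨w, rfl⟩ := hps i
        exact h1 w
      · obtain ⟨w, rfl⟩ := hqs j
        exact fun h2 => h1 w ((h w).2 h2)
  · intro E h
    have h1 := htr (fun w => E (z w)) (fun w => (h w).symm) fun w => by rw [← hz]; exact (h w).symm
    rcases h1 with h1 | h1
    · left
      intro σ
      obtain ⟨w, rfl⟩ := hzs σ
      exact h1 w
    · right
      intro σ
      obtain ⟨w, rfl⟩ := hzs σ
      exact h1 w

end Pool.Agent.Helper94.T1
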