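import Pool.Agent.Helper94.T1.Planar

/-!
# Squared squares (helper61's Theorem A)

A square of side `m` is cut into integer squares with sum of the sides `3 m - 2`; the tiles carry maps with
`S_h S_t⁻¹ ≤ T_r T_l⁻¹`.  Then `M ≤ τ` implies `M = τ`.
-/

set_option autoImplicit false
set_option linter.unusedSectionVars false

open Finset

namespace Pool.Agent.Helper94.T1

/-- the start of a cell in its column: column and height -/
def key {E : Type*} {m : ℕ} {sz : E → ℕ} (al yt : E → ℕ) : (Σ e, Fin (sz e)) ⊕ Fin m → ℕ × ℕ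
  | Sum.inl w => (al w.1 + w.2, yt w.1)
  | Sum.inr i => (i, m)

/-- the end of a cell in its column: column and height -/
def keyT {E : Type*} {m : ℕ} {sz : E → ℕ} (al yt : E → ℕ) : (Σ e, Fin (sz e)) ⊕ Fin m → ℕ × ℕ
  | Sum.inl w => (al w.1 + w.2, yt w.1 + sz w.1)
  | Sum.inr i => (i, 0)

section col

variable {E : Type*} [Fintype E] {m : ℕ} {al yt sz : E → ℕ}

/-- the next cell in the column -/
theorem next_col (hal : ∀ e, al e + sz e ≤ m) (hyt : ∀ e, yt e + sz e ≤ m) (hsz : ∀ e, 0 < sz e)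
    (hpart : ∀ i < m, ∀ j < m, ∃! e, (al e ≤ i ∧ i < al e + sz e) ∧ (yt e ≤ j ∧ j < yt e + sz e)) :
    ∃ a : Equiv.Perm ((Σ e, Fin (sz e)) ⊕ Fin m), ∀ w, key al yt (a w) = keyT al yt w := by
  classical
  -- the cell over a point
  have hcell : ∀ i j : ℕ, i < m → j < m → (j = 0 ∨ ∃ e', (al e' ≤ i ∧ i < al e' + sz e') ∧ yt e' + sz e' = j) →
      ∃ w : Σ e, Fin (sz e), al w.1 + w.2 = i ∧ yt w.1 = j := by
    intro i j hi hj h
    obtain ⟨e, ⟨⟨h1, h2⟩, h3, h4⟩, hun⟩ := hpart i hi j hj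
    refine ⟨⟨e, ⟨i - al e, by omega⟩⟩, by simp only; omega, ?_⟩
    show yt e = j
    rcases h with h | ⟨e', h5, h6⟩
    · omega
    · by_contra hne
      have hj1 : 0 < j := by
        have := hsz e'
        omega
      have h7 := (hpart i hi (j - 1) (by omega)).unique (y₁ := e) (y₂ := e')
        ⟨⟨h1, h2⟩, by omega, by omega⟩ ⟨h5, by have := hsz e'; omega, by omega⟩
      subst h7
      omega
  have hex : ∀ w : (Σ e, Fin (sz e)) ⊕ Fin m, ∃ w' : (Σ e, Fin (sz e)) ⊕ Fin m, key al yt w' = keyT al yt w := by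
    rintro (⟨e, c⟩ | i)
    · have hc := c.2
      by_cases h : yt e + sz e < m
      · obtain ⟨w, hw1, hw2⟩ := hcell (al e + c) (yt e + sz e) (by have := hal e; omega) h
          (Or.inr ⟨e, ⟨by omega, by omega⟩, rfl⟩)
        refine ⟨Sum.inl w, ?_⟩
        simp only [key, keyT, hw1, hw2]
      · refine ⟨Sum.inr ⟨al e + c, by have := hal e; omega⟩, ?_⟩
        have := hyt e
        simp only [key, keyT, Prod.mk.injEq]
        exact ⟨trivial, by omega⟩
    · have hi := i.2
      obtain ⟨w, hw1, hw2⟩ := hcell i 0 hi (by omega) (Or.inl rfl)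
      refine ⟨Sum.inl w, ?_⟩
      simp only [key, keyT, hw1, hw2]
  have hinjT : Function.Injective (keyT (sz := sz) (m := m) al yt) := by
    rintro (⟨e, c⟩ | i) (⟨e', c'⟩ | i') h
    · simp only [keyT, Prod.mk.injEq] at h
      obtain ⟨h1, h2⟩ := h
      have hc := c.2
      have hc' := c'.2
      have s1 := hsz e
      have s2 := hsz e'
      have hee : e = e' := (hpart (al e + c) (by have := hal e; omega) (yt e + sz e - 1)
        (by have := hyt e; omega)).unique
        ⟨⟨by omega, by omega⟩, by omega, by omega⟩ ⟨⟨by omega, by omega⟩, by omega, by omega⟩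
      subst hee
      have : c = c' := Fin.ext (by omega)
      rw [this]
    · simp only [keyT, Prod.mk.injEq] at h
      have := hsz e
      omega
    · simp only [keyT, Prod.mk.injEq] at h
      have := hsz e'
      omega
    · simp only [keyT, Prod.mk.injEq] at h
      rw [Fin.ext h.1]
  choose f hf using hex
  have hfi : Function.Injective f := by
    intro w w' h
    apply hinjT
    rw [← hf w, ← hf w', h]
  refine ⟨Equiv.ofBijective f (Finite.injective_iff_bijective.1 hfi), fun w => ?_⟩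
  rw [Equiv.ofBijective_apply]
  exact hf w

/-- a set of cells closed under `next in the column` is a union of columns -/
theorem col_conn (hsz : ∀ e, 0 < sz e) {a : Equiv.Perm ((Σ e, Fin (sz e)) ⊕ Fin m)}
    (ha : ∀ w, key al yt (a w) = keyT al yt w) {W : (Σ e, Fin (sz e)) ⊕ Fin m → Prop}
    (hW : ∀ w, W (a w) ↔ W w) (w : Σ e, Fin (sz e)) (h : al w.1 + w.2 < m) :
    W (Sum.inl w) ↔ W (Sum.inr ⟨al w.1 + w.2, h⟩) := by
  have key' : ∀ n : ℕ, ∀ (w : Σ e, Fin (sz e)) (h : al w.1 + w.2 < m), yt w.1 = n →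
      (W (Sum.inl w) ↔ W (Sum.inr ⟨al w.1 + w.2, h⟩)) := by
    intro n
    induction n using Nat.strong_induction_on with
    | _ n ih =>
      intro w h hn
      obtain ⟨w', hw'⟩ := a.surjective (Sum.inl w)
      have h1 := ha w'
      rw [hw'] at h1
      rcases w' with w' | i
      · simp only [key, keyT, Prod.mk.injEq] at h1
        obtain ⟨h2, h3⟩ := h1
        have hs := hsz w'.1
        have h4 := ih (yt w'.1) (by omega) w' (by omega) rfl
        have h5 : (⟨al w'.1 + w'.2, by omega⟩ : Fin m) = ⟨al w.1 + w.2, h⟩ := Fin.ext h2.symm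
        rw [← hw', hW, h4, h5]
      · simp only [key, keyT, Prod.mk.injEq] at h1
        have h5 : i = ⟨al w.1 + w.2, h⟩ := Fin.ext h1.1.symm
        rw [← hw', hW, h5]
  exact key' _ w h rfl

end col

/-- counting over the tiles -/
theorem sum_tiles {E : Type*} [Fintype E] {m : ℕ} {al yt sz : E → ℕ} (hal : ∀ e, al e + sz e ≤ m)
    (hyt : ∀ e, yt e + sz e ≤ m)
    (hpart : ∀ i < m, ∀ j < m, ∃! e, (al e ≤ i ∧ i < al e + sz e) ∧ (yt e ≤ j ∧ j < yt e + sz e)) (f g : ℕ → ℤ) :
    (∑ i ∈ range m, f i) * ∑ j ∈ range m, g j =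
      ∑ e, (∑ c ∈ range (sz e), f (al e + c)) * ∑ c ∈ range (sz e), g (yt e + c) := by
  classical
  rw [sum_mul_sum, ← sum_product']
  have h1 : ∀ x ∈ range m ×ˢ range m, f x.1 * g x.2 = ∑ e, if (al e ≤ x.1 ∧ x.1 < al e + sz e) ∧
      (yt e ≤ x.2 ∧ x.2 < yt e + sz e) then f x.1 * g x.2 else 0 := by
    intro x hx
    rw [mem_product, mem_range, mem_range] at hx
    obtain ⟨e, he, hun⟩ := hpart x.1 hx.1 x.2 hx.2
    rw [sum_eq_single e]
    · rw [if_pos he]
    · intro e' _ hne
      rw [if_neg]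
      intro h
      exact hne (hun e' h)
    · intro h
      exact absurd (mem_univ e) h
  rw [sum_congr rfl h1, sum_comm]
  refine sum_congr rfl fun e _ => ?_
  rw [← sum_filter]
  have h2 : (range m ×ˢ range m).filter (fun x => (al e ≤ x.1 ∧ x.1 < al e + sz e) ∧
      (yt e ≤ x.2 ∧ x.2 < yt e + sz e)) = Ico (al e) (al e + sz e) ×ˢ Ico (yt e) (yt e + sz e) := by
    ext x
    have := hal e
    have := hyt e
    simp only [mem_filter, mem_product, mem_range, mem_Ico]
    omega
  rw [h2, sum_product]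
  simp only
  rw [← sum_mul_sum, sum_Ico_eq_sum_range, sum_Ico_eq_sum_range,
    Nat.add_sub_cancel_left, Nat.add_sub_cancel_left]

/-- the label graph is connected -/
theorem label_conn {E : Type*} [Fintype E] {m : ℕ} {al yt sz : E → ℕ} (hal : ∀ e, al e + sz e ≤ m)
    (hyt : ∀ e, yt e + sz e ≤ m)
    (hpart : ∀ i < m, ∀ j < m, ∃! e, (al e ≤ i ∧ i < al e + sz e) ∧ (yt e ≤ j ∧ j < yt e + sz e))
    (hsum : ∑ e, sz e + 2 = 3 * m) (C : ℕ → Prop) (hC : ∀ e, ∀ c < sz e, C (al e + c) ↔ C (yt e + c)) :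
    (∀ i < m, C i) ∨ ∀ i < m, ¬ C i := by
  classical
  set f : ℕ → ℤ := fun i => if C i then 1 else 0 with hf
  set n : ℤ := ∑ i ∈ range m, f i with hn
  set A : E → ℤ := fun e => ∑ c ∈ range (sz e), f (al e + c) with hA
  have hA' : ∀ e, ∑ c ∈ range (sz e), f (yt e + c) = A e := by
    intro e
    refine sum_congr rfl fun c hc => ?_
    have := hC e c (mem_range.1 hc)
    simp only [hf, this]
  have e1 := sum_tiles hal hyt hpart f f
  have e2 := sum_tiles hal hyt hpart f fun _ => 1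
  have e3 := sum_tiles hal hyt hpart (fun _ => 1) fun _ => 1
  simp only [hA', sum_const, card_range, nsmul_eq_mul, mul_one] at e1 e2 e3
  change n * n = ∑ e, A e * A e at e1
  change n * (m : ℤ) = ∑ e, A e * (sz e : ℤ) at e2
  -- proportionality
  have e4 : ∑ e, ((m : ℤ) * A e - n * sz e) ^ 2 = 0 := by
    have h1 : ∀ e, ((m : ℤ) * A e - n * sz e) ^ 2 =
        (m : ℤ) ^ 2 * (A e * A e) - 2 * m * n * (A e * sz e) + n ^ 2 * ((sz e : ℤ) * sz e) := fun e => by ring
    simp only [h1]
    rw [sum_add_distrib, sum_sub_distrib, ← mul_sum, ← mul_sum, ← mul_sum, ← e1, ← e2, ← e3]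
    ring
  have e5 : ∀ e, (m : ℤ) * A e = n * sz e := by
    intro e
    have h1 := (sum_eq_zero_iff_of_nonneg fun e _ => sq_nonneg ((m : ℤ) * A e - n * sz e)).1 e4 e (mem_univ e)
    have h2 := pow_eq_zero_iff (two_ne_zero) |>.1 h1
    linarith
  set S : ℤ := ∑ e, A e with hS
  have e6 : (m : ℤ) * S = n * (3 * m - 2) := by
    have h1 : (∑ e, (sz e : ℤ)) = 3 * m - 2 := by
      have h2 : ((∑ e, sz e + 2 : ℕ) : ℤ) = ((3 * m : ℕ) : ℤ) := by rw [hsum]
      push_cast at h2
      linarith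
    rw [hS, mul_sum, sum_congr rfl fun e _ => e5 e, ← mul_sum, h1]
  -- parity
  have e7 : (2 : ℤ) ∣ n * n - S := by
    rw [e1, hS, ← sum_sub_distrib]
    refine dvd_sum fun e _ => ?_
    have h1 : A e * A e - A e = A e * (A e - 1) := by ring
    rw [h1]
    have h2 := Int.even_mul_pred_self (A e)
    exact h2.two_dvd
  have hn0 : 0 ≤ n := sum_nonneg fun i _ => by simp only [hf]; split_ifs <;> norm_num
  have hnm : n ≤ m := by
    have h1 : n ≤ ∑ i ∈ range m, (1 : ℤ) := sum_le_sum fun i _ => by simp only [hf]; split_ifs <;> norm_num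
    simpa using h1
  by_cases h0 : n = 0
  · right
    intro i hi hCi
    have h1 := (sum_eq_zero_iff_of_nonneg (s := range m) (f := f) fun i _ => by
      simp only [hf]; split_ifs <;> norm_num).1 h0 i (mem_range.2 hi)
    simp only [hf, if_pos hCi] at h1
    exact one_ne_zero h1
  by_cases h1 : n = m
  · left
    intro i hi
    by_contra hCi
    have h2 : n < ∑ i ∈ range m, (1 : ℤ) := by
      refine sum_lt_sum (fun i _ => by simp only [hf]; split_ifs <;> norm_num) ⟨i, mem_range.2 hi, ?_⟩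
      simp only [hf, if_neg hCi]
      norm_num
    simp only [sum_const, card_range, nsmul_eq_mul, mul_one] at h2
    omega
  exfalso
  have hm0 : 0 < (m : ℤ) := by omega
  have e8 : (m : ℤ) * (3 * n - S) = 2 * n := by
    have : (m : ℤ) * (3 * n - S) = 3 * m * n - m * S := by ring
    rw [this, e6]
    ring
  have h3 : 0 < 3 * n - S := by
    by_contra h
    have : (m : ℤ) * (3 * n - S) ≤ 0 := mul_nonpos_of_nonneg_of_nonpos hm0.le (not_lt.1 h)
    omega
  have h4 : 3 * n - S < 2 := by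
    by_contra h
    have : (m : ℤ) * 2 ≤ (m : ℤ) * (3 * n - S) := mul_le_mul_of_nonneg_left (not_lt.1 h) hm0.le
    omega
  have h5 : S = 3 * n - 1 := by omega
  rw [h5] at e7
  have h6 : n * n - (3 * n - 1) = n * (n - 1) - 2 * n + 1 := by ring
  rw [h6] at e7
  have h7 := (Int.even_mul_pred_self n).two_dvd
  omega

/-- **Theorem A** -/
theorem square {E X : Type*} [Fintype E] [LinearOrder X] {m : ℕ} (hm : 0 < m) {al yt sz : E → ℕ}
    (hsz : ∀ e, 0 < sz e) (hal : ∀ e, al e + sz e ≤ m) (hyt : ∀ e, yt e + sz e ≤ m)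
    (hpart : ∀ i < m, ∀ j < m, ∃! e, (al e ≤ i ∧ i < al e + sz e) ∧ (yt e ≤ j ∧ j < yt e + sz e))
    (hsum : ∑ e, sz e + 2 = 3 * m)
    (St Sh Tl Tr : E → X ≃o X) (τ M : X ≃o X)
    (H : ∀ e x, Sh e ((St e).symm x) ≤ Tr e ((Tl e).symm x))
    (hcol : ∀ e e' i, al e ≤ i → i < al e + sz e → al e' ≤ i → i < al e' + sz e' → yt e' = yt e + sz e →
      ∀ x, St e' x ≤ Sh e x)
    (hbot : ∀ e, yt e = 0 → ∀ x, St e x ≤ x) (htop : ∀ e, yt e + sz e = m → ∀ x, τ x ≤ Sh e x)
    (hrow : ∀ e e' j, yt e ≤ j → j < yt e + sz e → yt e' ≤ j → j < yt e' + sz e' → al e' = al e + sz e →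
      ∀ x, Tr e x ≤ Tl e' x)
    (hleft : ∀ e, al e = 0 → ∀ x, x ≤ Tl e x) (hright : ∀ e, al e + sz e = m → ∀ x, Tr e x ≤ M x)
    (hMτ : ∀ x, M x ≤ τ x) : ∀ x, M x = τ x := by
  classical
  obtain ⟨a, ha⟩ := next_col hal hyt hsz hpart
  obtain ⟨b, hb⟩ := next_col (al := yt) (yt := al) hyt hal hsz
    (fun i hi j hj => by
      obtain ⟨e, he, hun⟩ := hpart j hj i hi
      exact ⟨e, ⟨he.2, he.1⟩, fun e' he' => hun e' ⟨he'.2, he'.1⟩⟩)
  -- labels and times
  have hp0 : ∀ w : (Σ e, Fin (sz e)) ⊕ Fin m, (key al yt w).1 < m := by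
    rintro (⟨e, c⟩ | i)
    · have := hal e
      have := c.2
      simp only [key]
      omega
    · exact i.2
  have hq0 : ∀ w : (Σ e, Fin (sz e)) ⊕ Fin m, (key yt al w).1 < m := by
    rintro (⟨e, c⟩ | i)
    · have := hyt e
      have := c.2
      simp only [key]
      omega
    · exact i.2
  have hz0 : ∀ w : (Σ e, Fin (sz e)) ⊕ Fin m, (key al yt w).1 + (key al yt w).2 < 2 * m := by
    rintro (⟨e, c⟩ | i)
    · have := hal e
      have := hyt e
      have := c.2
      simp only [key]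
      omega
    · have := i.2
      simp only [key]
      omega
  have hzz : ∀ w : (Σ e, Fin (sz e)) ⊕ Fin m, (key al yt w).1 + (key al yt w).2 =
      (key yt al w).1 + (key yt al w).2 := by
    rintro (⟨e, c⟩ | i)
    · simp only [key]; omega
    · simp only [key]
  have hzT : ∀ w : (Σ e, Fin (sz e)) ⊕ Fin m, (keyT al yt w).1 + (keyT al yt w).2 =
      (keyT yt al w).1 + (keyT yt al w).2 := by
    rintro (⟨e, c⟩ | i)
    · simp only [keyT]; omega
    · simp only [keyT]
  have hkT : ∀ (al yt : E → ℕ) (w : (Σ e, Fin (sz e)) ⊕ Fin m), (keyT al yt w).1 = (key al yt w).1 := by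
    rintro al yt (⟨e, c⟩ | i) <;> rfl
  set p : (Σ e, Fin (sz e)) ⊕ Fin m → Fin m := fun w => ⟨(key al yt w).1, hp0 w⟩ with hp
  set q : (Σ e, Fin (sz e)) ⊕ Fin m → Fin m := fun w => ⟨(key yt al w).1, hq0 w⟩ with hq
  set z : (Σ e, Fin (sz e)) ⊕ Fin m → Fin (2 * m) := fun w =>
    ⟨(key al yt w).1 + (key al yt w).2, hz0 w⟩ with hz
  have hpa : ∀ w, p (a w) = p w := fun w => Fin.ext (by
    show (key al yt (a w)).1 = (key al yt w).1
    rw [ha, hkT])
  have hqb : ∀ w, q (b w) = q w := fun w => Fin.ext (by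
    show (key yt al (b w)).1 = (key yt al w).1
    rw [hb, hkT])
  have hzab : ∀ w, z (a w) = z (b w) := fun w => Fin.ext (by
    show (key al yt (a w)).1 + (key al yt (a w)).2 = (key al yt (b w)).1 + (key al yt (b w)).2
    rw [ha, hzz (b w), hb, hzT])
  -- the label graph
  have hL : ∀ (C D : Fin m → Prop), (∀ w, C (p w) ↔ D (q w)) →
      ((∀ i, C i) ∧ ∀ j, D j) ∨ ((∀ i, ¬ C i) ∧ ∀ j, ¬ D j) := by
    intro C D h
    have hCD : ∀ i : Fin m, C i ↔ D i := fun i => h (Sum.inr i)
    have h1 := label_conn hal hyt hpart hsum (fun i => ∃ hi : i < m, C ⟨i, hi⟩) (by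
      intro e c hc
      have h2 := h (Sum.inl ⟨e, ⟨c, hc⟩⟩)
      have h3 := hal e
      have h4 := hyt e
      have h5 : p (Sum.inl ⟨e, ⟨c, hc⟩⟩) = ⟨al e + c, by omega⟩ := rfl
      have h6 : q (Sum.inl ⟨e, ⟨c, hc⟩⟩) = ⟨yt e + c, by omega⟩ := rfl
      rw [h5, h6, ← hCD] at h2
      exact ⟨fun ⟨_, h7⟩ => ⟨by omega, h2.1 h7⟩, fun ⟨_, h7⟩ => ⟨by omega, h2.2 h7⟩⟩)
    rcases h1 with h1 | h1
    · left
      have h2 : ∀ i : Fin m, C i := fun i => by
        obtain ⟨_, h3⟩ := h1 i i.2
        exact h3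
      exact ⟨h2, fun j => (hCD j).1 (h2 j)⟩
    · right
      have h2 : ∀ i : Fin m, ¬ C i := fun i h3 => h1 i i.2 ⟨i.2, h3⟩
      exact ⟨h2, fun j h3 => h2 j ((hCD j).2 h3)⟩
  -- the time graph
  have hZ : ∀ F : Fin (2 * m) → Prop, (∀ w, F (z w) ↔ F (z (a w))) → (∀ σ, F σ) ∨ ∀ σ, ¬ F σ := by
    intro F hF
    have hWa : ∀ w, F (z (a w)) ↔ F (z w) := fun w => (hF w).symm
    have hWb : ∀ w, F (z (b w)) ↔ F (z w) := fun w => by rw [← hzab]; exact (hF w).symm
    have h1 := hL (fun i => F (z (Sum.inr i))) (fun i => F (z (Sum.inr i))) (by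
      rintro (w | i)
      · have h2 := col_conn hsz ha (W := fun w => F (z w)) hWa w (hp0 (Sum.inl w))
        have h3 := col_conn hsz hb (W := fun w => F (z w)) hWb w (hq0 (Sum.inl w))
        exact h2.symm.trans h3
      · exact Iff.rfl)
    have hzi : ∀ i : Fin m, z (Sum.inr i) = ⟨i + m, by omega⟩ := fun i => rfl
    have hzai : ∀ i : Fin m, z (a (Sum.inr i)) = ⟨i, by omega⟩ := fun i => Fin.ext (by
      show (key al yt (a (Sum.inr i))).1 + (key al yt (a (Sum.inr i))).2 = i
      rw [ha]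
      rfl)
    rcases h1 with ⟨h1, -⟩ | ⟨h1, -⟩
    · left
      intro σ
      by_cases hσ : (σ : ℕ) < m
      · have h2 := (hF _).1 (h1 ⟨σ, hσ⟩)
        rw [hzai] at h2
        exact h2
      · have h2 := h1 ⟨σ - m, by omega⟩
        rw [hzi] at h2
        have h3 : (⟨σ - m + m, by omega⟩ : Fin (2 * m)) = σ := Fin.ext (by simp only; omega)
        rw [← h3]
        exact h2
    · right
      intro σ hσF
      by_cases hσ : (σ : ℕ) < m
      · apply h1 ⟨σ, hσ⟩
        rw [hF, hzai]
        exact hσF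
      · apply h1 ⟨σ - m, by omega⟩
        rw [hzi]
        have h3 : (⟨σ - m + m, by omega⟩ : Fin (2 * m)) = σ := Fin.ext (by simp only; omega)
        rw [← h3] at hσF
        exact hσF
  have hcard : Fintype.card ((Σ e, Fin (sz e)) ⊕ Fin m) + 2 ≤
      Fintype.card (Fin m) + Fintype.card (Fin m) + Fintype.card (Fin (2 * m)) := by
    rw [Fintype.card_sum, Fintype.card_sigma]
    simp only [Fintype.card_fin]
    omega
  have key1 := planar_slack a b p q z hpa hqb hzab hL hZ hcard
    (fun w => Sum.elim (fun w => St w.1) (fun _ => τ) w) (fun w => Sum.elim (fun w => Sh w.1) (fun _ => OrderIso.refl X) w)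
    (fun w => Sum.elim (fun w => Tl w.1) (fun _ => M) w) (fun w => Sum.elim (fun w => Tr w.1) (fun _ => OrderIso.refl X) w)
    (by
      rintro (w | i) x
      · exact H w.1 x
      · show τ.symm x ≤ M.symm x
        rw [OrderIso.symm_apply_le]
        have h1 := hMτ (M.symm x)
        rwa [OrderIso.apply_symm_apply] at h1)
    (by
      intro w x
      have h1 := ha w
      rcases hw' : a w with w' | i'
      · rw [hw'] at h1
        rcases w with w | i
        · simp only [key, keyT, Prod.mk.injEq] at h1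
          have c1 := w.2.2
          have c2 := w'.2.2
          exact hcol w.1 w'.1 (al w.1 + w.2) (by omega) (by omega) (by omega) (by omega) h1.2 x
        · simp only [key, keyT, Prod.mk.injEq] at h1
          exact hbot w'.1 h1.2 x
      · rw [hw'] at h1
        rcases w with w | i
        · simp only [key, keyT, Prod.mk.injEq] at h1
          exact htop w.1 h1.2.symm x
        · simp only [key, keyT, Prod.mk.injEq] at h1
          omega)
    (by
      intro w x
      have h1 := hb w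
      rcases hw' : b w with w' | i'
      · rw [hw'] at h1
        rcases w with w | i
        · simp only [key, keyT, Prod.mk.injEq] at h1
          have c1 := w.2.2
          have c2 := w'.2.2
          exact hrow w.1 w'.1 (yt w.1 + w.2) (by omega) (by omega) (by omega) (by omega) h1.2 x
        · simp only [key, keyT, Prod.mk.injEq] at h1
          exact hleft w'.1 h1.2 x
      · rw [hw'] at h1
        rcases w with w | i
        · simp only [key, keyT, Prod.mk.injEq] at h1
          exact hright w.1 h1.2.symm x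
        · simp only [key, keyT, Prod.mk.injEq] at h1
          omega)
    (Sum.inr ⟨0, hm⟩)
  intro x
  have h1 := (key1 (τ x)).1
  have h2 : τ.symm (τ x) = M.symm (τ x) := h1
  rw [OrderIso.symm_apply_apply] at h2
  rw [h2, OrderIso.apply_symm_apply, ← h2]

end Pool.Agent.Helper94.T1
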